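import Pool.Agent.H67.GF.I6Cb

/-!
# I6C: number of norm polynomials
-/

set_option autoImplicit false

namespace Pool.Agent.H67.GF

open Pool.Agent.H7.GF Polynomial NumberField Module

/-- an integer of a field of prime degree is rational or a generator -/
theorem deg_dich {F : Type} [Field F] [NumberField F] (γ : 𝓞 F) (hd : (finrank ℚ F).Prime) :
    (minpoly ℤ γ).natDegree = finrank ℚ F ∨ ∃ n : ℤ, γ = ((n : ℤ) : 𝓞 F) := by
  have h1 : (minpoly ℤ γ).natDegree = (minpoly ℚ (γ : F)).natDegree := by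
    rw [← minpoly_int, natDegree_map_eq_of_injective Int.cast_injective]
  have h2 : (minpoly ℚ (γ : F)).natDegree ∣ finrank ℚ F :=
    minpoly.degree_dvd (Algebra.IsIntegral.isIntegral (γ : F))
  rcases (Nat.dvd_prime hd).1 h2 with h | h
  · right
    rw [← h1, minpoly.natDegree_eq_one_iff] at h
    obtain ⟨n, hn⟩ := h
    exact ⟨n, by rw [← hn]; rfl⟩
  · left
    rw [h1, h]

/-- bound for the coefficients of the minimal polynomials -/
theorem dat_coeff {b : ℤ} {Z : ℝ} {a : Fin 5 → ℤ} {F : Type} [Field F] [NumberField F] {r : ℕ}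
    {γ : Fin r → 𝓞 F} {M : InfinitePlace F → ℝ} (h : Dat b Z a F γ M) (i : Fin r)
    (hdeg : (minpoly ℤ (γ i)).natDegree = finrank ℚ F) (k : ℕ) :
    |((minpoly ℤ (γ i)).coeff k : ℝ)| ≤ 16 ^ (finrank ℚ F) * Z := by
  obtain ⟨h1, h2, h3, -⟩ := h
  refine (coeff_bound (γ i) hdeg k).trans ?_
  have h4 : ∏ σ : F →+* ℂ, max 1 ‖σ (γ i : F)‖ ≤ 8 ^ (finrank ℚ F) * Z := by
    calc ∏ σ : F →+* ℂ, max 1 ‖σ (γ i : F)‖ ≤ ∏ σ : F →+* ℂ, 8 * M (InfinitePlace.mk σ) := by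
          apply Finset.prod_le_prod
          · intro σ _; positivity
          · intro σ _
            apply max_le
            · have := h1 (InfinitePlace.mk σ); linarith
            · exact h3 i (InfinitePlace.mk σ)
      _ = 8 ^ (finrank ℚ F) * ∏ w : InfinitePlace F, M w ^ w.mult := by
          rw [Finset.prod_mul_distrib, Finset.prod_const, Finset.card_univ,
            NumberField.Embeddings.card F ℂ, prod_emb]
      _ ≤ _ := by gcongr
  calc (2 : ℝ) ^ (finrank ℚ F) * ∏ σ : F →+* ℂ, max 1 ‖σ (γ i : F)‖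
      ≤ 2 ^ (finrank ℚ F) * (8 ^ (finrank ℚ F) * Z) := by gcongr
    _ = 16 ^ (finrank ℚ F) * Z := by
        rw [← mul_assoc, ← mul_pow]; norm_num

/-- the constant coefficient is a norm -/
theorem dat_norm {b : ℤ} {Z : ℝ} {a : Fin 5 → ℤ} {F : Type} [Field F] [NumberField F] {r : ℕ}
    {γ : Fin r → 𝓞 F} {M : InfinitePlace F → ℝ} (h : Dat b Z a F γ M) (hr : 0 < r) :
    ((b : ℤ) : ℂ) = ∏ σ : F →+* ℂ, σ (γ ⟨0, hr⟩ : F) := by
  have h4 := congrArg (fun p : ℂ[X] => p.coeff 0) h.2.2.2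
  simp only [coeff_map, pol_coeff_zero] at h4
  rw [coeff_zero_eq_eval_zero, eval_prod] at h4
  have h5 : ((Int.castRingHom ℂ) b) = ((b : ℤ) : ℂ) := rfl
  rw [← h5, h4]
  apply Finset.prod_congr rfl
  intro σ _
  simp only [eval_add, eval_pow, eval_X, eval_finsetSum, eval_mul, eval_C]
  rw [zero_pow hr.ne', zero_add, Finset.sum_eq_single (⟨0, hr⟩ : Fin r)]
  · simp
  · intro j _ hj
    have : (j : ℕ) ≠ 0 := fun h => hj (Fin.ext h)
    rw [zero_pow this, mul_zero]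
  · intro h; exact absurd (Finset.mem_univ _) h

/-- some entry is a generator -/
theorem dat_gen {b : ℤ} {Z : ℝ} {a : Fin 5 → ℤ} {F : Type} [Field F] [NumberField F] {r : ℕ}
    {γ : Fin r → 𝓞 F} {M : InfinitePlace F → ℝ} (h : Dat b Z a F γ M)
    (hd : (finrank ℚ F).Prime) (hirr : Irreducible (toQ (pol b a))) :
    ∃ i, (minpoly ℤ (γ i)).natDegree = finrank ℚ F := by
  by_contra hcon
  push Not at hcon
  have hn : ∀ i, ∃ n : ℤ, γ i = ((n : ℤ) : 𝓞 F) := fun i => (deg_dich (γ i) hd).resolve_left (hcon i)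
  choose n hn using hn
  set G : ℤ[X] := X ^ r + ∑ i : Fin r, C (n i) * X ^ (i : ℕ) with hG
  have h1 : (pol b a).map (Int.castRingHom ℂ) = (G ^ (finrank ℚ F)).map (Int.castRingHom ℂ) := by
    rw [h.2.2.2, Polynomial.map_pow, ← NumberField.Embeddings.card F ℂ, ← Finset.card_univ,
      ← Finset.prod_const]
    apply Finset.prod_congr rfl
    intro σ _
    rw [hG, Polynomial.map_add, Polynomial.map_pow, map_X, Polynomial.map_sum]
    congr 1
    apply Finset.sum_congr rfl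
    intro i _
    rw [Polynomial.map_mul, Polynomial.map_pow, map_X, map_C, hn i]
    congr 2
    simp
  have h2 : pol b a = G ^ (finrank ℚ F) := map_injective _ Int.cast_injective h1
  rw [h2, toQ, Polynomial.map_pow] at hirr
  exact not_irreducible_pow hd.one_lt.ne' hirr

/-- the sets counted by `core` -/
def As (b : ℤ) (Z : ℝ) (d r : ℕ) (i₀ : Fin r) (J : Finset (Fin r)) (nf : Fin r → ℤ)
    (q : ℤ[X]) : Set (Fin 5 → ℤ) :=
  {a : Fin 5 → ℤ | ∃ (F : Type) (_ : Field F) (_ : NumberField F) (γ : Fin r → 𝓞 F)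
      (M : InfinitePlace F → ℝ), finrank ℚ F = d ∧ Dat b Z a F γ M ∧ minpoly ℤ (γ i₀) = q ∧
      ∀ j ∈ J, j ≠ i₀ → γ j = ((nf j : ℤ) : 𝓞 F)}

theorem cnt_As (hP : T_PACK) (b : ℤ) (Z : ℝ) (hZ : 1 < Z) (m r : ℕ) (i₀ : Fin r)
    (J : Finset (Fin r)) (nf : Fin r → ℤ) (c₀ : ℤ) (c : Fin m → ℤ) (H : ℕ) :
    cnt 5 H (fun a => a ∈ As b Z (m + 1) r i₀ J nf (pol c₀ c)) ≤
      5 ^ (m + 1) * (48 ^ (m + 1) * Z ^ (1 + ((m + 1 : ℕ) : ℝ) / 4)) ^ (r - (insert i₀ J).card) := by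
  obtain ⟨h1, h2⟩ := core hP b Z hZ (m + 1) r i₀ J nf (pol c₀ c) (pol_natDegree c₀ c)
  refine le_trans ?_ h2
  rw [cnt]
  have h3 : {a | a ∈ box 5 H ∧ a ∈ As b Z (m + 1) r i₀ J nf (pol c₀ c)}.ncard ≤
      (As b Z (m + 1) r i₀ J nf (pol c₀ c)).ncard :=
    Set.ncard_le_ncard (fun a ha => ha.2) h1
  exact_mod_cast h3

/-- case A: the first entry is a generator -/
theorem caseA (hP : T_PACK) (b : ℤ) (Z : ℝ) (hZ : 1 < Z) (m r : ℕ) (hr : 0 < r) (N H : ℕ) :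
    cnt 5 H (fun a => ∃ c ∈ box m N, a ∈ As b Z (m + 1) r ⟨0, hr⟩ ∅ (fun _ => 0)
      (pol ((-1) ^ (m + 1) * b) c)) ≤
      (2 * (N : ℝ) + 1) ^ m * (5 ^ (m + 1) *
        (48 ^ (m + 1) * Z ^ (1 + ((m + 1 : ℕ) : ℝ) / 4)) ^ (r - 1)) := by
  refine (cnt_exists_le (box m N) _).trans ?_
  calc ∑ c ∈ box m N, cnt 5 H (fun a => a ∈ As b Z (m + 1) r ⟨0, hr⟩ ∅ (fun _ => 0)
        (pol ((-1) ^ (m + 1) * b) c))
      ≤ ∑ _c ∈ box m N, 5 ^ (m + 1) *
        (48 ^ (m + 1) * Z ^ (1 + ((m + 1 : ℕ) : ℝ) / 4)) ^ (r - 1) := by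
        apply Finset.sum_le_sum
        intro c _
        have := cnt_As hP b Z hZ m r ⟨0, hr⟩ ∅ (fun _ => 0) ((-1) ^ (m + 1) * b) c H
        simpa using this
    _ = _ := by
        rw [Finset.sum_const, card_box, nsmul_eq_mul]
        push_cast
        ring

/-- case B: the first entry is rational -/
theorem caseB (hP : T_PACK) (b : ℤ) (Z : ℝ) (hZ : 1 < Z) (m r : ℕ) (hr : 0 < r) (N H : ℕ)
    (i₀ : Fin r) (hi₀ : i₀ ≠ ⟨0, hr⟩) :
    cnt 5 H (fun a => ∃ p ∈ (Finset.Icc (-|b|) |b| ×ˢ Finset.Icc (-(N : ℤ)) N) ×ˢ box m N,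
      a ∈ As b Z (m + 1) r i₀ {⟨0, hr⟩} (fun _ => p.1.1) (pol p.1.2 p.2)) ≤
      ((2 * |(b : ℝ)| + 1) * (2 * (N : ℝ) + 1) * (2 * (N : ℝ) + 1) ^ m) * (5 ^ (m + 1) *
        (48 ^ (m + 1) * Z ^ (1 + ((m + 1 : ℕ) : ℝ) / 4)) ^ (r - 2)) := by
  refine (cnt_exists_le _ _).trans ?_
  calc ∑ p ∈ (Finset.Icc (-|b|) |b| ×ˢ Finset.Icc (-(N : ℤ)) N) ×ˢ box m N,
        cnt 5 H (fun a => a ∈ As b Z (m + 1) r i₀ {⟨0, hr⟩} (fun _ => p.1.1) (pol p.1.2 p.2))
      ≤ ∑ _p ∈ (Finset.Icc (-|b|) |b| ×ˢ Finset.Icc (-(N : ℤ)) N) ×ˢ box m N, 5 ^ (m + 1) *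
        (48 ^ (m + 1) * Z ^ (1 + ((m + 1 : ℕ) : ℝ) / 4)) ^ (r - 2) := by
        apply Finset.sum_le_sum
        intro p _
        have := cnt_As hP b Z hZ m r i₀ {⟨0, hr⟩} (fun _ => p.1.1) p.1.2 p.2 H
        rwa [Finset.card_pair hi₀] at this
    _ = _ := by
        rw [Finset.sum_const, Finset.card_product, Finset.card_product, card_box, Int.card_Icc,
          Int.card_Icc, nsmul_eq_mul]
        have e1 : (((|b| + 1 - -|b|).toNat : ℕ) : ℝ) = 2 * |(b : ℝ)| + 1 := by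
          have : (((|b| + 1 - -|b|).toNat : ℕ) : ℤ) = 2 * |b| + 1 := by
            rw [Int.toNat_of_nonneg (by have := abs_nonneg b; omega)]; ring
          have h := congrArg (fun z : ℤ => (z : ℝ)) this
          push_cast at h
          exact h
        have e2 : ((((N : ℤ) + 1 - -(N : ℤ)).toNat : ℕ) : ℝ) = 2 * (N : ℝ) + 1 := by
          have : ((((N : ℤ) + 1 - -(N : ℤ)).toNat : ℕ) : ℤ) = 2 * N + 1 := by
            rw [Int.toNat_of_nonneg (by omega)]; ring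
          have h := congrArg (fun z : ℤ => (z : ℝ)) this
          push_cast at h
          exact h
        rw [Nat.cast_mul, Nat.cast_mul, e1, e2]
        push_cast
        ring

/-- classification of the polynomials -/
theorem classify (b : ℤ) (hb : b ≠ 0) (Z : ℝ) (N : ℕ) (m r : ℕ) (hr : 0 < r)
    (hm : (m + 1).Prime) (hN : 16 ^ (m + 1) * Z ≤ N) (a : Fin 5 → ℤ) (F : Type) [Field F]
    [NumberField F] (hF : finrank ℚ F = m + 1) (γ : Fin r → 𝓞 F) (M : InfinitePlace F → ℝ)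
    (h : Dat b Z a F γ M) (hirr : Irreducible (toQ (pol b a))) :
    (∃ c ∈ box m N, a ∈ As b Z (m + 1) r ⟨0, hr⟩ ∅ (fun _ => 0)
      (pol ((-1) ^ (m + 1) * b) c)) ∨
    ∃ i₀ : Fin r, i₀ ≠ ⟨0, hr⟩ ∧
      ∃ p ∈ (Finset.Icc (-|b|) |b| ×ˢ Finset.Icc (-(N : ℤ)) N) ×ˢ box m N,
      a ∈ As b Z (m + 1) r i₀ {⟨0, hr⟩} (fun _ => p.1.1) (pol p.1.2 p.2) := by
  have hd : (finrank ℚ F).Prime := by rw [hF]; exact hm
  have hcoef : ∀ i, (minpoly ℤ (γ i)).natDegree = finrank ℚ F → ∀ k,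
      |(minpoly ℤ (γ i)).coeff k| ≤ (N : ℤ) := by
    intro i hi k
    have h1 := (dat_coeff h i hi k)
    rw [hF] at h1
    have h2 := h1.trans hN
    exact_mod_cast h2
  have hpol : ∀ i, (minpoly ℤ (γ i)).natDegree = finrank ℚ F →
      minpoly ℤ (γ i) = pol ((minpoly ℤ (γ i)).coeff 0)
        (fun j : Fin m => (minpoly ℤ (γ i)).coeff ((j : ℕ) + 1)) := by
    intro i hi
    exact eq_pol _ (minpoly.monic (RingOfIntegers.isIntegral (γ i))) (by rw [hi, hF])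
  have hnorm := dat_norm h hr
  rcases deg_dich (γ ⟨0, hr⟩) hd with h0 | ⟨n, hn⟩
  · left
    have hc0 : (minpoly ℤ (γ ⟨0, hr⟩)).coeff 0 = (-1) ^ (m + 1) * b := by
      have h1 := minpoly_coeff_zero (γ ⟨0, hr⟩) h0
      rw [← hnorm, hF] at h1
      exact_mod_cast h1
    refine ⟨fun j : Fin m => (minpoly ℤ (γ ⟨0, hr⟩)).coeff ((j : ℕ) + 1), ?_, ?_⟩
    · rw [mem_box]
      intro j
      exact hcoef _ h0 _
    · refine ⟨F, inferInstance, inferInstance, γ, M, hF, h, ?_, fun j hj => ?_⟩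
      · rw [← hc0]; exact hpol _ h0
      · exact absurd hj (by simp)
  · right
    obtain ⟨i₀, hi₀⟩ := dat_gen h hd hirr
    have hne : i₀ ≠ ⟨0, hr⟩ := by
      rintro rfl
      rw [hn] at hi₀
      have h1 : (minpoly ℤ ((n : ℤ) : 𝓞 F)).natDegree = 1 := by
        rw [minpoly.natDegree_eq_one_iff]
        exact ⟨n, by simp⟩
      rw [h1] at hi₀
      exact hd.one_lt.ne hi₀
    have hnb : |n| ≤ |b| := by
      have h1 : ((b : ℤ) : ℂ) = ((n ^ (m + 1) : ℤ) : ℂ) := by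
        rw [hnorm, hn]
        have : ∀ σ : F →+* ℂ, σ (((n : ℤ) : 𝓞 F) : F) = (n : ℂ) := by
          intro σ; simp
        simp only [this]
        rw [Finset.prod_const, Finset.card_univ, NumberField.Embeddings.card F ℂ, hF]
        push_cast; rfl
      have h2 : b = n ^ (m + 1) := by exact_mod_cast h1
      rw [h2, abs_pow]
      have h3 : 1 ≤ |n| := by
        apply Int.one_le_abs
        rintro rfl
        rw [zero_pow (by omega)] at h2
        exact hb h2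
      calc |n| = |n| ^ 1 := (pow_one _).symm
        _ ≤ |n| ^ (m + 1) := pow_le_pow_right₀ h3 (by omega)
    refine ⟨i₀, hne, ((n, (minpoly ℤ (γ i₀)).coeff 0),
      fun j : Fin m => (minpoly ℤ (γ i₀)).coeff ((j : ℕ) + 1)), ?_, ?_⟩
    · simp only [Finset.mem_product, Finset.mem_Icc, mem_box]
      exact ⟨⟨abs_le.1 hnb, abs_le.1 (hcoef _ hi₀ _)⟩, fun j => hcoef _ hi₀ _⟩
    · refine ⟨F, inferInstance, inferInstance, γ, M, hF, h, hpol _ hi₀, fun j hj _ => ?_⟩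
      rw [Finset.mem_singleton.1 hj]
      exact hn

theorem i6c (hP : T_PACK) : T_I6C := by
  classical
  intro b hb
  set β : ℝ := |(b : ℝ)| with hβ
  have hβ0 : 0 ≤ β := abs_nonneg _
  set C1 : ℝ := 8193 * 25 * 48 ^ 4 + 8193 ^ 2 * 125 * 48 ^ 3 +
    2 * (2 * β + 1) * 8193 ^ 2 * 25 * 48 ^ 2 + (2 * β + 1) * 8193 ^ 3 * 125 with hC1
  have hC10 : 0 ≤ C1 := by positivity
  refine ⟨C1 * (20 * (1 + β)) ^ 4, ?_⟩
  intro H hH
  have hH1 : (1 : ℝ) ≤ H := by exact_mod_cast hH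
  set Z : ℝ := 20 * (H + β) with hZdef
  have hZ20 : 20 ≤ Z := by rw [hZdef]; linarith
  have hZ : 1 < Z := by linarith
  have hZ0 : 0 < Z := by linarith
  set N : ℕ := 81920 * (H + b.natAbs) with hN
  have hNZ : (N : ℝ) = 4096 * Z := by
    rw [hN, hZdef, hβ]
    push_cast
    rw [Nat.cast_natAbs]
    push_cast
    ring
  have hN2 : 2 * (N : ℝ) + 1 ≤ 8193 * Z := by rw [hNZ]; linarith
  have hN16a : (16 : ℝ) ^ (1 + 1) * Z ≤ N := by
    have e : (16 : ℝ) ^ (1 + 1) = 256 := by norm_num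
    rw [hNZ, e]; linarith
  have hN16b : (16 : ℝ) ^ (2 + 1) * Z ≤ N := by
    have e : (16 : ℝ) ^ (2 + 1) = 4096 := by norm_num
    rw [hNZ, e]
  -- the four families
  set QA : ℕ → ℕ → (Fin 5 → ℤ) → Prop := fun m r a => ∃ hr : 0 < r, ∃ c ∈ box m N,
    a ∈ As b Z (m + 1) r ⟨0, hr⟩ ∅ (fun _ => 0) (pol ((-1) ^ (m + 1) * b) c) with hQA
  set QB : ℕ → ℕ → ℕ → (Fin 5 → ℤ) → Prop := fun m r i a => ∃ (hr : 0 < r) (hi : i < r),
    ∃ p ∈ (Finset.Icc (-|b|) |b| ×ˢ Finset.Icc (-(N : ℤ)) N) ×ˢ box m N,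
      a ∈ As b Z (m + 1) r ⟨i, hi⟩ {⟨0, hr⟩} (fun _ => p.1.1) (pol p.1.2 p.2) with hQB
  have hsub : ∀ a ∈ box 5 H, (Irreducible (toQ (pol b a)) ∧ Nrm b H a) →
      (QA 1 3 a ∨ QA 2 2 a) ∨ ((QB 1 3 1 a ∨ QB 1 3 2 a) ∨ QB 2 2 1 a) := by
    rintro a - ⟨hirr, F, fF, nF, d, r, γ, M, hFd, hdr, hd, h1, h2, h3, h4⟩
    have hD : Dat b Z a F γ M := ⟨h1, h2, h3, h4⟩
    rcases hd with rfl | rfl
    · have hr3 : r = 3 := by omega
      subst hr3
      rcases classify b hb Z N 1 3 (by norm_num) (by norm_num) hN16a a F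
        hFd γ M hD hirr with h | ⟨i, hi, h⟩
      · exact Or.inl (Or.inl ⟨by norm_num, h⟩)
      · right; left
        have : (i : ℕ) = 1 ∨ (i : ℕ) = 2 := by
          have h5 : (i : ℕ) ≠ 0 := fun h5 => hi (Fin.ext h5)
          have := i.2
          omega
        rcases this with h6 | h6
        · left
          have : i = ⟨1, by norm_num⟩ := Fin.ext h6
          subst this
          exact ⟨by norm_num, by norm_num, h⟩
        · right
          have : i = ⟨2, by norm_num⟩ := Fin.ext h6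
          subst this
          exact ⟨by norm_num, by norm_num, h⟩
    · have hr2 : r = 2 := by omega
      subst hr2
      rcases classify b hb Z N 2 2 (by norm_num) (by norm_num) hN16b a F
        hFd γ M hD hirr with h | ⟨i, hi, h⟩
      · exact Or.inl (Or.inr ⟨by norm_num, h⟩)
      · right; right
        have : (i : ℕ) = 1 := by
          have h5 : (i : ℕ) ≠ 0 := fun h5 => hi (Fin.ext h5)
          have := i.2
          omega
        have h6 : i = ⟨1, by norm_num⟩ := Fin.ext this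
        subst h6
        exact ⟨by norm_num, by norm_num, h⟩
  have hA : ∀ m r : ℕ, 0 < r → cnt 5 H (QA m r) ≤ (2 * (N : ℝ) + 1) ^ m * (5 ^ (m + 1) *
        (48 ^ (m + 1) * Z ^ (1 + ((m + 1 : ℕ) : ℝ) / 4)) ^ (r - 1)) := by
    intro m r hr
    refine (cnt_mono ?_).trans (caseA hP b Z hZ m r hr N H)
    rintro a - ⟨_, h⟩
    exact h
  have hB : ∀ m r i : ℕ, 0 < r → i < r → i ≠ 0 → cnt 5 H (QB m r i) ≤
      ((2 * β + 1) * (2 * (N : ℝ) + 1) * (2 * (N : ℝ) + 1) ^ m) * (5 ^ (m + 1) *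
        (48 ^ (m + 1) * Z ^ (1 + ((m + 1 : ℕ) : ℝ) / 4)) ^ (r - 2)) := by
    intro m r i hr hi hi0
    refine (cnt_mono ?_).trans (caseB hP b Z hZ m r hr N H ⟨i, hi⟩ (by simpa using hi0))
    rintro a - ⟨_, _, h⟩
    exact h
  have htot : cnt 5 H (fun a => Irreducible (toQ (pol b a)) ∧ Nrm b H a) ≤
      (cnt 5 H (QA 1 3) + cnt 5 H (QA 2 2)) +
        ((cnt 5 H (QB 1 3 1) + cnt 5 H (QB 1 3 2)) + cnt 5 H (QB 2 2 1)) := by
    refine (cnt_mono hsub).trans ?_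
    refine (cnt_or_le _ _).trans (add_le_add (cnt_or_le _ _) ?_)
    refine (cnt_or_le _ _).trans (add_le_add (cnt_or_le _ _) le_rfl)
  have a1 := hA 1 3 (by norm_num)
  have a2 := hA 2 2 (by norm_num)
  have b1 := hB 1 3 1 (by norm_num) (by norm_num) (by norm_num)
  have b2 := hB 1 3 2 (by norm_num) (by norm_num) (by norm_num)
  have b3 := hB 2 2 1 (by norm_num) (by norm_num) (by norm_num)
  -- powers of Z
  set W : ℝ := Z ^ (1 + ((1 + 1 : ℕ) : ℝ) / 4) with hW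
  set V : ℝ := Z ^ (1 + ((2 + 1 : ℕ) : ℝ) / 4) with hV
  have hW0 : 0 ≤ W := by positivity
  have hV0 : 0 ≤ V := by positivity
  have hWW : W ^ 2 = Z ^ 3 := by
    rw [hW, ← Real.rpow_natCast, ← Real.rpow_mul hZ0.le, ← Real.rpow_natCast Z 3]
    norm_num
  have hWZ : W ≤ Z ^ 2 := by
    rw [hW, ← Real.rpow_natCast Z 2]
    apply Real.rpow_le_rpow_of_exponent_le hZ.le
    norm_num
  have hVZ : V ≤ Z ^ 2 := by
    rw [hV, ← Real.rpow_natCast Z 2]
    apply Real.rpow_le_rpow_of_exponent_le hZ.le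
    norm_num
  set n2 : ℝ := 2 * (N : ℝ) + 1 with hn2
  have hn20 : 0 ≤ n2 := by positivity
  have c1 : cnt 5 H (QA 1 3) ≤ 8193 * 25 * 48 ^ 4 * Z ^ 4 := by
    refine a1.trans ?_
    have e : n2 ^ 1 * (5 ^ (1 + 1) * (48 ^ (1 + 1) * W) ^ (3 - 1)) = 25 * 48 ^ 4 * (n2 * W ^ 2) := by
      ring
    rw [e, hWW]
    calc 25 * 48 ^ 4 * (n2 * Z ^ 3) ≤ 25 * 48 ^ 4 * ((8193 * Z) * Z ^ 3) := by gcongr
      _ = _ := by ring
  have c2 : cnt 5 H (QA 2 2) ≤ 8193 ^ 2 * 125 * 48 ^ 3 * Z ^ 4 := by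
    refine a2.trans ?_
    have e : n2 ^ 2 * (5 ^ (2 + 1) * (48 ^ (2 + 1) * V) ^ (2 - 1)) = 125 * 48 ^ 3 * (n2 ^ 2 * V) := by
      norm_num; ring
    rw [e]
    calc 125 * 48 ^ 3 * (n2 ^ 2 * V) ≤ 125 * 48 ^ 3 * ((8193 * Z) ^ 2 * Z ^ 2) := by gcongr
      _ = _ := by ring
  have c3 : ∀ i, (i = 1 ∨ i = 2) → cnt 5 H (QB 1 3 i) ≤
      (2 * β + 1) * 8193 ^ 2 * 25 * 48 ^ 2 * Z ^ 4 := by
    intro i hi
    have bi : cnt 5 H (QB 1 3 i) ≤ ((2 * β + 1) * n2 * n2 ^ 1) * (5 ^ (1 + 1) *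
        (48 ^ (1 + 1) * W) ^ (3 - 2)) := by
      rcases hi with rfl | rfl
      · exact b1
      · exact b2
    refine bi.trans ?_
    have e : ((2 * β + 1) * n2 * n2 ^ 1) * (5 ^ (1 + 1) * (48 ^ (1 + 1) * W) ^ (3 - 2)) =
        (2 * β + 1) * 25 * 48 ^ 2 * (n2 ^ 2 * W) := by
      norm_num; ring
    rw [e]
    calc (2 * β + 1) * 25 * 48 ^ 2 * (n2 ^ 2 * W) ≤
        (2 * β + 1) * 25 * 48 ^ 2 * ((8193 * Z) ^ 2 * Z ^ 2) := by gcongr
      _ = _ := by ring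
  have c4 : cnt 5 H (QB 2 2 1) ≤ (2 * β + 1) * 8193 ^ 3 * 125 * Z ^ 4 := by
    refine b3.trans ?_
    have e : ((2 * β + 1) * n2 * n2 ^ 2) * (5 ^ (2 + 1) * (48 ^ (2 + 1) * V) ^ (2 - 2)) =
        (2 * β + 1) * 125 * n2 ^ 3 := by
      norm_num; ring
    rw [e]
    calc (2 * β + 1) * 125 * n2 ^ 3 ≤ (2 * β + 1) * 125 * (8193 * Z) ^ 3 := by gcongr
      _ = (2 * β + 1) * 125 * 8193 ^ 3 * Z ^ 3 := by ring
      _ ≤ (2 * β + 1) * 125 * 8193 ^ 3 * Z ^ 4 := by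
          gcongr
          · exact hZ.le
          · norm_num
      _ = _ := by ring
  have c31 := c3 1 (Or.inl rfl)
  have c32 := c3 2 (Or.inr rfl)
  have hZH : Z ≤ 20 * (1 + β) * H := by
    rw [hZdef]
    nlinarith
  calc cnt 5 H (fun a => Irreducible (toQ (pol b a)) ∧ Nrm b H a) ≤ C1 * Z ^ 4 := by
        refine htot.trans ?_
        rw [hC1]
        linarith
    _ ≤ C1 * (20 * (1 + β) * H) ^ 4 := by gcongr
    _ = C1 * (20 * (1 + β)) ^ 4 * (H : ℝ) ^ 4 := by ring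

end Pool.Agent.H67.GF
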