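import Pool.Agent.H7.GF.Targets3
import Pool.Agent.H7.GF.Targets1
import Pool.Agent.H7.GF.Basic

/-!
# I6C, part 1: generators of number fields, transport of tuples
-/

set_option autoImplicit false

namespace Pool.Agent.H67.GF

open Pool.Agent.H7.GF Polynomial NumberField Module

/-- product over places as a product over embeddings -/
theorem prod_emb {F : Type} [Field F] [NumberField F] (g : InfinitePlace F → ℝ) :
    ∏ σ : F →+* ℂ, g (InfinitePlace.mk σ) = ∏ w : InfinitePlace F, g w ^ w.mult := by
  classical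
  rw [← Finset.prod_fiberwise (s := (Finset.univ : Finset (F →+* ℂ))) (g := InfinitePlace.mk)]
  apply Finset.prod_congr rfl
  intro w _
  rw [Finset.prod_congr rfl (g := fun _ => g w) (fun σ hσ => by rw [(Finset.mem_filter.1 hσ).2]),
    Finset.prod_const, InfinitePlace.card_filter_mk_eq]

/-- the minimal polynomial of a generator is the product over the embeddings -/
theorem minpoly_prod {F : Type} [Field F] [NumberField F] (γ : F)
    (hdeg : (minpoly ℚ γ).natDegree = finrank ℚ F) :
    (minpoly ℚ γ).map (algebraMap ℚ ℂ) = ∏ σ : F →+* ℂ, (X - C (σ γ)) := by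
  classical
  have hint : IsIntegral ℚ γ := Algebra.IsIntegral.isIntegral γ
  set p : ℂ[X] := (minpoly ℚ γ).map (algebraMap ℚ ℂ) with hp
  have hsep : p.Separable := (minpoly.irreducible hint).separable.map
  have hnd : p.roots.Nodup := nodup_roots hsep
  have hmon : p.Monic := (minpoly.monic hint).map _
  have hcard : p.roots.card = finrank ℚ F := by
    rw [← (IsAlgClosed.splits p).natDegree_eq_card_roots, hp, natDegree_map, hdeg]
  have hset : ∀ z : ℂ, z ∈ p.roots ↔ ∃ σ : F →+* ℂ, σ γ = z := by
    intro z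
    have h1 := NumberField.Embeddings.range_eval_eq_rootSet_minpoly F ℂ γ
    have h2 : z ∈ (minpoly ℚ γ).rootSet ℂ ↔ z ∈ p.roots := by
      rw [rootSet, Finset.mem_coe, Multiset.mem_toFinset]
    rw [← h2, ← h1]
    rfl
  have himg : p.roots.toFinset = Finset.univ.image (fun σ : F →+* ℂ => σ γ) := by
    ext z
    rw [Multiset.mem_toFinset, hset, Finset.mem_image]
    simp
  have hinj : Function.Injective (fun σ : F →+* ℂ => σ γ) := by
    have h1 : (Finset.univ.image (fun σ : F →+* ℂ => σ γ)).card =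
        (Finset.univ : Finset (F →+* ℂ)).card := by
      rw [← himg, Multiset.toFinset_card_of_nodup hnd, hcard, Finset.card_univ,
        NumberField.Embeddings.card F ℂ]
    have := Finset.card_image_iff.1 h1
    exact fun a b h => this (Finset.mem_coe.2 (Finset.mem_univ _))
      (Finset.mem_coe.2 (Finset.mem_univ _)) h
  have hroots : p.roots = (Finset.univ : Finset (F →+* ℂ)).val.map (fun σ => σ γ) := by
    rw [← Multiset.dedup_eq_self.2 hnd, ← Multiset.toFinset_val, himg,
      Finset.image_val_of_injOn hinj.injOn]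
  have h1 : (p.roots.map (fun a => X - C a)).prod = p :=
    prod_multiset_X_sub_C_of_monic_of_roots_card_eq hmon
      (by rw [hcard, hp, natDegree_map, hdeg])
  rw [← h1, hroots, Multiset.map_map]
  rfl

/-- relation between the integral and the rational minimal polynomial -/
theorem minpoly_int {F : Type} [Field F] [NumberField F] (γ : 𝓞 F) :
    (minpoly ℤ γ).map (Int.castRingHom ℚ) = minpoly ℚ (γ : F) := by
  have h1 : minpoly ℤ (γ : F) = minpoly ℤ γ :=
    minpoly.algebraMap_eq (NumberField.RingOfIntegers.coe_injective) γ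
  have h2 := minpoly.isIntegrallyClosed_eq_field_fractions' ℚ (NumberField.RingOfIntegers.isIntegral_coe γ)
  rw [h2, h1]
  rfl

/-- the value at zero of the minimal polynomial -/
theorem minpoly_coeff_zero {F : Type} [Field F] [NumberField F] (γ : 𝓞 F)
    (hdeg : (minpoly ℤ γ).natDegree = finrank ℚ F) :
    (((minpoly ℤ γ).coeff 0 : ℤ) : ℂ) = (-1) ^ (finrank ℚ F) * ∏ σ : F →+* ℂ, σ (γ : F) := by
  have hdeg' : (minpoly ℚ (γ : F)).natDegree = finrank ℚ F := by
    rw [← minpoly_int, natDegree_map_eq_of_injective Int.cast_injective, hdeg]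
  have h1 := minpoly_prod (γ : F) hdeg'
  have h2 : ((minpoly ℚ (γ : F)).map (algebraMap ℚ ℂ)).coeff 0 = (((minpoly ℤ γ).coeff 0 : ℤ) : ℂ) := by
    rw [← minpoly_int, map_map, coeff_map]
    simp
  rw [← h2, h1, coeff_zero_eq_eval_zero, eval_prod]
  simp only [eval_sub, eval_X, eval_C, zero_sub]
  rw [Finset.prod_neg, Finset.card_univ, NumberField.Embeddings.card F ℂ]

/-- bound of the coefficients of the minimal polynomial -/
theorem coeff_bound {F : Type} [Field F] [NumberField F] (γ : 𝓞 F)
    (hdeg : (minpoly ℤ γ).natDegree = finrank ℚ F) (k : ℕ) :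
    |((minpoly ℤ γ).coeff k : ℝ)| ≤ 2 ^ (finrank ℚ F) * ∏ σ : F →+* ℂ, max 1 ‖σ (γ : F)‖ := by
  have hdeg' : (minpoly ℚ (γ : F)).natDegree = finrank ℚ F := by
    rw [← minpoly_int, natDegree_map_eq_of_injective Int.cast_injective, hdeg]
  have h1 := minpoly_prod (γ : F) hdeg'
  set p := (minpoly ℚ (γ : F)).map (algebraMap ℚ ℂ) with hp
  have h2 : p.coeff k = (((minpoly ℤ γ).coeff k : ℤ) : ℂ) := by
    rw [hp, ← minpoly_int, map_map, coeff_map]
    simp
  have hnd : p.natDegree = finrank ℚ F := by rw [hp, natDegree_map, hdeg']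
  have h3 : |((minpoly ℤ γ).coeff k : ℝ)| = ‖p.coeff k‖ := by
    rw [h2, Complex.norm_intCast]
  have hM : p.mahlerMeasure = ∏ σ : F →+* ℂ, max 1 ‖σ (γ : F)‖ := by
    rw [h1]
    show (((Finset.univ : Finset (F →+* ℂ)).val.map (fun σ : F →+* ℂ => X - C (σ (γ : F)))).prod).mahlerMeasure = _
    rw [prod_mahlerMeasure_eq_mahlerMeasure_prod, Multiset.map_map]
    simp only [Function.comp_def, mahlerMeasure_X_sub_C]
    rfl
  rw [h3, ← hM, ← hnd]
  refine (norm_coeff_le_choose_mul_mahlerMeasure k p).trans ?_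
  gcongr
  · exact mahlerMeasure_nonneg p
  · exact_mod_cast Nat.choose_le_two_pow _ _

/-- two number fields generated by roots of the same polynomial -/
theorem exists_iso {F E : Type} [Field F] [NumberField F] [Field E] [NumberField E] (γ : 𝓞 F)
    (θ : 𝓞 E) (hγ : (minpoly ℤ γ).natDegree = finrank ℚ F)
    (hθ : (minpoly ℤ θ).natDegree = finrank ℚ E) (h : minpoly ℤ γ = minpoly ℤ θ) :
    ∃ φ : F ≃+* E, φ (γ : F) = (θ : E) := by
  have key : ∀ (G : Type) [Field G] [NumberField G] (x : 𝓞 G),
      (minpoly ℤ x).natDegree = finrank ℚ G → ∃ pb : PowerBasis ℚ G, pb.gen = (x : G) := by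
    intro G _ _ x hx
    have hdeg' : (minpoly ℚ (x : G)).natDegree = finrank ℚ G := by
      rw [← minpoly_int, natDegree_map_eq_of_injective Int.cast_injective, hx]
    have htop : IntermediateField.adjoin ℚ {(x : G)} = ⊤ :=
      (Field.primitive_element_iff_minpoly_natDegree_eq ℚ (x : G)).2 hdeg'
    have hint : IsIntegral ℚ (x : G) := Algebra.IsIntegral.isIntegral _
    refine ⟨(IntermediateField.adjoin.powerBasis hint).map
      ((IntermediateField.equivOfEq htop).trans IntermediateField.topEquiv), ?_⟩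
    rw [PowerBasis.map_gen, IntermediateField.adjoin.powerBasis_gen]
    rfl
  obtain ⟨pb, hpb⟩ := key F γ hγ
  obtain ⟨pb', hpb'⟩ := key E θ hθ
  have hmin : minpoly ℚ pb.gen = minpoly ℚ pb'.gen := by
    rw [hpb, hpb', ← minpoly_int, ← minpoly_int, h]
  refine ⟨(pb.equivOfMinpoly pb' hmin).toRingEquiv, ?_⟩
  have := pb.equivOfMinpoly_gen pb' hmin
  rw [hpb, hpb'] at this
  exact this

end Pool.Agent.H67.GF
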