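import Pool.Agent.H67.GF.I6Ca

/-!
# I6C, part 2: counting for a fixed minimal polynomial
-/

set_option autoImplicit false

namespace Pool.Agent.H67.GF

open Pool.Agent.H7.GF Polynomial NumberField Module

/-- the data of `Nrm` -/
def Dat (b : ℤ) (Z : ℝ) (a : Fin 5 → ℤ) (F : Type) [Field F] [NumberField F] {r : ℕ}
    (γ : Fin r → 𝓞 F) (M : InfinitePlace F → ℝ) : Prop :=
  (∀ w, 1 ≤ M w) ∧ ∏ w : InfinitePlace F, M w ^ w.mult ≤ Z ∧
    (∀ (i : Fin r) (w : InfinitePlace F), w (γ i : F) ≤ 8 * M w) ∧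
    (pol b a).map (Int.castRingHom ℂ) =
      ∏ σ : F →+* ℂ, (X ^ r + ∑ i : Fin r, C (σ (γ i : F)) * X ^ (i : ℕ))

/-- precomposition with an isomorphism -/
def homEquiv {F E : Type} [Field F] [Field E] (φ : F ≃+* E) : (E →+* ℂ) ≃ (F →+* ℂ) where
  toFun σ := σ.comp (φ : F →+* E)
  invFun τ := τ.comp (φ.symm : E →+* F)
  left_inv σ := by ext x; simp
  right_inv τ := by ext x; simp

/-- transport of the data -/
theorem Dat.transport {b : ℤ} {Z : ℝ} {a : Fin 5 → ℤ} {F E : Type} [Field F] [NumberField F]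
    [Field E] [NumberField E] {r : ℕ} {γ : Fin r → 𝓞 F} {M : InfinitePlace F → ℝ}
    (h : Dat b Z a F γ M) (φ : F ≃+* E) :
    Dat b Z a E (fun i => RingOfIntegers.mapRingEquiv φ (γ i))
      (fun w => M (w.comap (φ : F →+* E))) := by
  obtain ⟨h1, h2, h3, h4⟩ := h
  refine ⟨fun w => h1 _, ?_, fun i w => ?_, ?_⟩
  · rw [← prod_emb]
    rw [← prod_emb] at h2
    refine le_trans (le_of_eq ?_) h2
    exact Fintype.prod_equiv (homEquiv φ) _ _ (fun σ => rfl)
  · have := h3 i (w.comap (φ : F →+* E))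
    rw [InfinitePlace.comap_apply] at this
    exact this
  · rw [h4]
    refine (Fintype.prod_equiv (homEquiv φ) _ _ (fun σ => ?_)).symm
    rfl

/-- number of places -/
theorem card_places (F : Type) [Field F] [NumberField F] :
    Fintype.card (InfinitePlace F) ≤ finrank ℚ F := by
  classical
  rw [← InfinitePlace.sum_mult_eq (K := F), ← Finset.card_univ, Finset.card_eq_sum_ones]
  apply Finset.sum_le_sum
  intro w _
  exact InfinitePlace.mult_pos

/-- quantization of the sizes -/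
theorem quant {F : Type} [Field F] [NumberField F] (Z : ℝ) (hZ : 1 < Z)
    (M : InfinitePlace F → ℝ) (h1 : ∀ w, 1 ≤ M w) (h2 : ∏ w : InfinitePlace F, M w ^ w.mult ≤ Z) :
    ∃ k : InfinitePlace F → Fin 5, (∀ w, M w ≤ Z ^ (((k w : ℕ) : ℝ) / 4)) ∧
      ∏ w : InfinitePlace F, (Z ^ (((k w : ℕ) : ℝ) / 4)) ^ w.mult ≤
        Z ^ (1 + (finrank ℚ F : ℝ) / 4) := by
  classical
  have hZ0 : 0 < Z := by linarith
  have hlogZ : 0 < Real.log Z := Real.log_pos hZ
  have hMZ : ∀ w, M w ≤ Z := by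
    intro w
    have h3 : M w ^ w.mult ≤ ∏ w : InfinitePlace F, M w ^ w.mult := by
      rw [← Finset.mul_prod_erase Finset.univ _ (Finset.mem_univ w)]
      have h4 : 1 ≤ ∏ x ∈ Finset.univ.erase w, M x ^ x.mult := by
        exact Finset.prod_induction (fun x : InfinitePlace F => M x ^ x.mult) (fun y => 1 ≤ y)
          (fun a b ha hb => one_le_mul_of_one_le_of_one_le ha hb) le_rfl
          (fun x _ => one_le_pow₀ (h1 x))
      have h5 : 0 ≤ M w ^ w.mult := pow_nonneg (by linarith [h1 w]) _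
      nlinarith
    calc M w = M w ^ 1 := (pow_one _).symm
      _ ≤ M w ^ w.mult := pow_le_pow_right₀ (h1 w) InfinitePlace.mult_pos
      _ ≤ Z := h3.trans h2
  set t : InfinitePlace F → ℝ := fun w => 4 * Real.log (M w) / Real.log Z with ht
  have ht0 : ∀ w, 0 ≤ t w := fun w =>
    div_nonneg (mul_nonneg (by norm_num) (Real.log_nonneg (h1 w))) hlogZ.le
  have ht4 : ∀ w, t w ≤ 4 := by
    intro w
    rw [ht]
    simp only
    rw [div_le_iff₀ hlogZ]
    have := Real.log_le_log (by linarith [h1 w] : 0 < M w) (hMZ w)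
    linarith
  have hk4 : ∀ w, ⌈t w⌉₊ < 5 := by
    intro w
    have : ⌈t w⌉₊ ≤ 4 := Nat.ceil_le.2 (by exact_mod_cast ht4 w)
    omega
  have hMt : ∀ w, M w = Z ^ (t w / 4) := by
    intro w
    rw [Real.rpow_def_of_pos hZ0]
    have : Real.log Z * (t w / 4) = Real.log (M w) := by
      rw [ht]; simp only; field_simp
    rw [this, Real.exp_log (by linarith [h1 w])]
  refine ⟨fun w => ⟨⌈t w⌉₊, hk4 w⟩, fun w => ?_, ?_⟩
  · rw [hMt w]
    apply Real.rpow_le_rpow_of_exponent_le hZ.le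
    simp only
    have := Nat.le_ceil (t w)
    linarith
  · have h6 : ∀ w, Z ^ ((((⟨⌈t w⌉₊, hk4 w⟩ : Fin 5) : ℕ) : ℝ) / 4) ≤ M w * Z ^ (1 / 4 : ℝ) := by
      intro w
      rw [hMt w, ← Real.rpow_add hZ0]
      apply Real.rpow_le_rpow_of_exponent_le hZ.le
      simp only
      have := Nat.ceil_lt_add_one (ht0 w)
      linarith
    calc ∏ w : InfinitePlace F, (Z ^ ((((⟨⌈t w⌉₊, hk4 w⟩ : Fin 5) : ℕ) : ℝ) / 4)) ^ w.mult
        ≤ ∏ w : InfinitePlace F, (M w * Z ^ (1 / 4 : ℝ)) ^ w.mult := by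
          apply Finset.prod_le_prod
          · intro w _; positivity
          · intro w _
            exact pow_le_pow_left₀ (by positivity) (h6 w) _
      _ = (∏ w : InfinitePlace F, M w ^ w.mult) * (Z ^ (1 / 4 : ℝ)) ^ (finrank ℚ F) := by
          simp only [mul_pow]
          rw [Finset.prod_mul_distrib, Finset.prod_pow_eq_pow_sum, InfinitePlace.sum_mult_eq]
      _ ≤ Z * (Z ^ (1 / 4 : ℝ)) ^ (finrank ℚ F) := by gcongr
      _ = Z ^ (1 + (finrank ℚ F : ℝ) / 4) := by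
          rw [← Real.rpow_natCast, ← Real.rpow_mul hZ0.le, Real.rpow_add hZ0, Real.rpow_one]
          congr 2
          ring

/-- counting for a fixed generator -/
theorem core (hP : T_PACK) (b : ℤ) (Z : ℝ) (hZ : 1 < Z) (d r : ℕ) (i₀ : Fin r)
    (J : Finset (Fin r)) (nf : Fin r → ℤ) (q : ℤ[X]) (hq : q.natDegree = d) :
    ({a : Fin 5 → ℤ | ∃ (F : Type) (_ : Field F) (_ : NumberField F) (γ : Fin r → 𝓞 F)
      (M : InfinitePlace F → ℝ), finrank ℚ F = d ∧ Dat b Z a F γ M ∧ minpoly ℤ (γ i₀) = q ∧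
      ∀ j ∈ J, j ≠ i₀ → γ j = ((nf j : ℤ) : 𝓞 F)}).Finite ∧
    (({a : Fin 5 → ℤ | ∃ (F : Type) (_ : Field F) (_ : NumberField F) (γ : Fin r → 𝓞 F)
      (M : InfinitePlace F → ℝ), finrank ℚ F = d ∧ Dat b Z a F γ M ∧ minpoly ℤ (γ i₀) = q ∧
      ∀ j ∈ J, j ≠ i₀ → γ j = ((nf j : ℤ) : 𝓞 F)}).ncard : ℝ) ≤
      5 ^ d * (48 ^ d * Z ^ (1 + (d : ℝ) / 4)) ^ (r - (insert i₀ J).card) := by
  classical
  set A := {a : Fin 5 → ℤ | ∃ (F : Type) (_ : Field F) (_ : NumberField F) (γ : Fin r → 𝓞 F)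
      (M : InfinitePlace F → ℝ), finrank ℚ F = d ∧ Dat b Z a F γ M ∧ minpoly ℤ (γ i₀) = q ∧
      ∀ j ∈ J, j ≠ i₀ → γ j = ((nf j : ℤ) : 𝓞 F)} with hA
  have hZ0 : 0 < Z := by linarith
  rcases Set.eq_empty_or_nonempty A with h | ⟨a₀, ha₀⟩
  · rw [h]
    refine ⟨Set.finite_empty, ?_⟩
    rw [Set.ncard_empty, Nat.cast_zero]
    positivity
  obtain ⟨E, fE, nE, γ₀, M₀, hEd, -, hE2, -⟩ := ha₀
  set θ := γ₀ i₀ with hθ
  set fix : Fin r → 𝓞 E := fun j => if j = i₀ then θ else ((nf j : ℤ) : 𝓞 E) with hfix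
  have hθdeg : (minpoly ℤ θ).natDegree = finrank ℚ E := by rw [hE2, hq, hEd]
  -- the boxes
  set Bx : (InfinitePlace E → Fin 5) → Set (𝓞 E) := fun k =>
    {γ : 𝓞 E | ∀ w : InfinitePlace E, w (γ : E) ≤ 8 * Z ^ (((k w : ℕ) : ℝ) / 4)} with hBx
  set KS : Finset (InfinitePlace E → Fin 5) := Finset.univ.filter (fun k =>
    ∏ w : InfinitePlace E, (Z ^ (((k w : ℕ) : ℝ) / 4)) ^ w.mult ≤ Z ^ (1 + (d : ℝ) / 4)) with hKS
  set Sk : (InfinitePlace E → Fin 5) → Set (Fin r → 𝓞 E) := fun k =>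
    {γ | (∀ j, γ j ∈ Bx k) ∧ ∀ j ∈ insert i₀ J, γ j = fix j} with hSk
  have hbox : ∀ k ∈ KS, (Bx k).Finite ∧ ((Bx k).ncard : ℝ) ≤ 48 ^ d * Z ^ (1 + (d : ℝ) / 4) := by
    intro k hk
    have hk' := (Finset.mem_filter.1 hk).2
    obtain ⟨h1, h2⟩ := hP E (fun w => 8 * Z ^ (((k w : ℕ) : ℝ) / 4)) (fun w => by
      have : (1 : ℝ) ≤ Z ^ (((k w : ℕ) : ℝ) / 4) := Real.one_le_rpow hZ.le (by positivity)
      linarith)
    refine ⟨h1, h2.trans ?_⟩
    have e : ∀ w : InfinitePlace E, (6 * (8 * Z ^ (((k w : ℕ) : ℝ) / 4))) ^ w.mult =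
        48 ^ w.mult * (Z ^ (((k w : ℕ) : ℝ) / 4)) ^ w.mult := by
      intro w; rw [← mul_assoc, mul_pow]; norm_num
    simp only [e]
    rw [Finset.prod_mul_distrib, Finset.prod_pow_eq_pow_sum, InfinitePlace.sum_mult_eq, hEd]
    gcongr
  have hSkf : ∀ k ∈ KS, (Sk k).Finite ∧ ((Sk k).ncard : ℝ) ≤
      (48 ^ d * Z ^ (1 + (d : ℝ) / 4)) ^ (r - (insert i₀ J).card) := by
    intro k hk
    obtain ⟨hf, hc⟩ := hbox k hk
    have hfin : (Sk k).Finite := by
      apply Set.Finite.subset (Set.Finite.pi' (fun _ : Fin r => hf))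
      intro γ hγ j
      exact hγ.1 j
    refine ⟨hfin, ?_⟩
    set PF := Fintype.piFinset (fun _ : {j : Fin r // j ∉ insert i₀ J} => hf.toFinset) with hPF
    have h1 : (Sk k).ncard ≤ PF.card := by
      rw [← Set.ncard_coe_finset]
      apply Set.ncard_le_ncard_of_injOn (fun γ => fun j : {j : Fin r // j ∉ insert i₀ J} => γ j)
      · intro γ hγ
        rw [Finset.mem_coe, hPF, Fintype.mem_piFinset]
        intro j
        exact hf.mem_toFinset.2 (hγ.1 j)
      · intro γ hγ γ' hγ' he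
        funext j
        by_cases hj : j ∈ insert i₀ J
        · rw [hγ.2 j hj, hγ'.2 j hj]
        · exact congrFun he ⟨j, hj⟩
    have h2 : PF.card = (Bx k).ncard ^ (r - (insert i₀ J).card) := by
      rw [hPF, Fintype.card_piFinset, Finset.prod_const, Finset.card_univ,
        ← Set.ncard_eq_toFinset_card _ hf]
      congr 1
      rw [Fintype.card_subtype_compl, Fintype.card_fin, Fintype.card_coe]
    calc ((Sk k).ncard : ℝ) ≤ (PF.card : ℝ) := by exact_mod_cast h1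
      _ = ((Bx k).ncard : ℝ) ^ (r - (insert i₀ J).card) := by rw [h2]; push_cast; rfl
      _ ≤ _ := by gcongr
  -- the map
  set T : Set (Fin r → 𝓞 E) := ⋃ k ∈ KS, Sk k with hT
  have hTfin : T.Finite := Set.Finite.biUnion KS.finite_toSet (fun k hk => (hSkf k hk).1)
  have hTc : (T.ncard : ℝ) ≤ 5 ^ d * (48 ^ d * Z ^ (1 + (d : ℝ) / 4)) ^ (r - (insert i₀ J).card) := by
    have h1 : T.ncard ≤ ∑ k ∈ KS, (Sk k).ncard := Finset.set_ncard_biUnion_le KS Sk
    have h2 : (KS.card : ℝ) ≤ 5 ^ d := by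
      have h3 : KS.card ≤ 5 ^ d := by
        calc KS.card ≤ (Finset.univ : Finset (InfinitePlace E → Fin 5)).card := Finset.card_filter_le _ _
          _ = 5 ^ Fintype.card (InfinitePlace E) := by
              rw [Finset.card_univ, Fintype.card_fun, Fintype.card_fin]
          _ ≤ 5 ^ d := by
              rw [← hEd]
              exact Nat.pow_le_pow_right (by norm_num) (card_places E)
      exact_mod_cast h3
    calc (T.ncard : ℝ) ≤ ((∑ k ∈ KS, (Sk k).ncard : ℕ) : ℝ) := by exact_mod_cast h1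
      _ = ∑ k ∈ KS, ((Sk k).ncard : ℝ) := by push_cast; rfl
      _ ≤ ∑ _k ∈ KS, (48 ^ d * Z ^ (1 + (d : ℝ) / 4)) ^ (r - (insert i₀ J).card) :=
          Finset.sum_le_sum fun k hk => (hSkf k hk).2
      _ = KS.card * (48 ^ d * Z ^ (1 + (d : ℝ) / 4)) ^ (r - (insert i₀ J).card) := by
          rw [Finset.sum_const, nsmul_eq_mul]
      _ ≤ _ := by gcongr
  have hex : ∀ a ∈ A, ∃ γ ∈ T, (pol b a).map (Int.castRingHom ℂ) =
      ∏ σ : E →+* ℂ, (X ^ r + ∑ i : Fin r, C (σ (γ i : E)) * X ^ (i : ℕ)) := by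
    rintro a ⟨F, fF, nF, γ, M, hFd, hD, hm, hJ⟩
    obtain ⟨φ, hφ⟩ := exists_iso (γ i₀) θ (by rw [hm, hq, hFd]) hθdeg (by rw [hm, hE2])
    have hD' := hD.transport φ
    obtain ⟨g1, g2, g3, g4⟩ := hD'
    obtain ⟨k, hk1, hk2⟩ := quant Z hZ _ g1 g2
    refine ⟨_, ?_, g4⟩
    rw [hT]
    refine Set.mem_iUnion₂.2 ⟨k, ?_, ?_⟩
    · rw [hKS, Finset.mem_filter]
      exact ⟨Finset.mem_univ _, by rw [hEd] at hk2; exact hk2⟩
    · refine ⟨fun j w => (g3 j w).trans ?_, ?_⟩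
      · have := hk1 w
        linarith
      · intro j hj
        rw [hfix]
        simp only
        split_ifs with hji
        · subst hji
          apply RingOfIntegers.ext
          rw [RingOfIntegers.mapRingEquiv_apply]
          exact hφ
        · rcases Finset.mem_insert.1 hj with h | h
          · exact absurd h hji
          · rw [hJ j h hji, map_intCast]
  choose! g hg1 hg2 using hex
  have hinj : Set.InjOn g A := by
    intro a ha a' ha' he
    have h1 := hg2 a ha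
    have h2 := hg2 a' ha'
    rw [he, ← h2] at h1
    exact pol_injective b (map_injective _ Int.cast_injective h1)
  have hAfin : A.Finite := Set.Finite.of_injOn hg1 hinj hTfin
  refine ⟨hAfin, le_trans ?_ hTc⟩
  exact_mod_cast Set.ncard_le_ncard_of_injOn g hg1 hinj hTfin

end Pool.Agent.H67.GF
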