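import Pool.Agent.H67.GF.RHO1

/-!
# RHO: average number of roots of `x² - s x + s²` modulo `l`
-/

set_option autoImplicit false

namespace Pool.Agent.H67.GF

open Pool.Agent.H7.GF

theorem pow_split (p : ℤ) (hp : Prime p) (A B : ℤ) (i : ℕ) (h : p ^ i ∣ A * B) :
    ∃ a b : ℕ, a + b = i ∧ p ^ a ∣ A ∧ p ^ b ∣ B := by
  induction i with
  | zero => exact ⟨0, 0, rfl, by simp, by simp⟩
  | succ i ih =>
    obtain ⟨a, b, hab, ⟨A', hA⟩, ⟨B', hB⟩⟩ := ih ((pow_dvd_pow p (Nat.le_succ i)).trans h)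
    have h1 : p ^ (i + 1) ∣ p ^ i * (A' * B') := by
      rw [hA, hB] at h
      have e : p ^ a * A' * (p ^ b * B') = p ^ i * (A' * B') := by
        rw [← hab, pow_add]; ring
      rwa [e] at h
    rw [pow_succ] at h1
    have h2 : p ∣ A' * B' := (mul_dvd_mul_iff_left (pow_ne_zero i hp.ne_zero)).1 h1
    rcases hp.dvd_or_dvd h2 with h3 | h3
    · refine ⟨a + 1, b, by omega, ?_, ⟨B', hB⟩⟩
      rw [hA, pow_succ]
      exact mul_dvd_mul_left _ h3
    · refine ⟨a, b + 1, by omega, ⟨A', hA⟩, ?_⟩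
      rw [hB, pow_succ]
      exact mul_dvd_mul_left _ h3

/-- prime powers -/
theorem Rt_pow (s : ℤ) (t : ℕ) (ht : t.Prime) (i : ℕ) :
    (Rt s (t ^ i)).card ≤ 2 * t ^ (i / 2) := by
  classical
  rcases Finset.eq_empty_or_nonempty (Rt s (t ^ i)) with h | ⟨x₀, hx₀⟩
  · rw [h]; simp
  obtain ⟨hx0, hx0d⟩ := mem_Rt.1 hx₀
  set j := i - i / 2 with hj
  have htp : 0 < t := ht.pos
  have hpt : Prime (t : ℤ) := Nat.prime_iff_prime_int.1 ht
  -- each residue class
  have hclass : ∀ a : ℤ, ((Finset.range (t ^ i)).filter (fun x : ℕ => ((t ^ j : ℕ) : ℤ) ∣ (x : ℤ) - a)).card ≤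
      t ^ (i / 2) := by
    intro a
    have h1 : ((Finset.range (t ^ i)).filter (fun x : ℕ => ((t ^ j : ℕ) : ℤ) ∣ (x : ℤ) - a)).card ≤
        (Finset.range (t ^ (i / 2))).card := by
      apply Finset.card_le_card_of_injOn (fun x => x / t ^ j)
      · intro x hx
        have hx := Finset.mem_coe.1 hx
        rw [Finset.mem_filter, Finset.mem_range] at hx
        rw [Finset.coe_range, Set.mem_Iio, Nat.div_lt_iff_lt_mul (pow_pos htp j), ← pow_add]
        have : i / 2 + j = i := by omega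
        rw [this]; exact hx.1
      · intro x hx y hy hxy
        have hx := (Finset.mem_filter.1 (Finset.mem_coe.1 hx)).2
        have hy := (Finset.mem_filter.1 (Finset.mem_coe.1 hy)).2
        simp only at hxy
        have h2 : ((t ^ j : ℕ) : ℤ) ∣ (x : ℤ) - y := by
          have := dvd_sub hx hy
          have e : (x : ℤ) - a - (y - a) = x - y := by ring
          rwa [e] at this
        have a1 := Nat.div_add_mod x (t ^ j)
        have a2 := Nat.div_add_mod y (t ^ j)
        have b1 := Nat.mod_lt x (pow_pos htp j)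
        have b2 := Nat.mod_lt y (pow_pos htp j)
        rw [hxy] at a1
        generalize t ^ j * (y / t ^ j) = A at a1 a2
        generalize x % t ^ j = r1 at a1 b1
        generalize y % t ^ j = r2 at a2 b2
        have h3 : |(x : ℤ) - y| < ((t ^ j : ℕ) : ℤ) := by
          rw [abs_lt]; constructor <;> omega
        have h4 := Int.eq_zero_of_abs_lt_dvd h2 h3
        have : (x : ℤ) = y := by omega
        exact_mod_cast this
    rwa [Finset.card_range] at h1
  have hsub : Rt s (t ^ i) ⊆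
      (Finset.range (t ^ i)).filter (fun x : ℕ => ((t ^ j : ℕ) : ℤ) ∣ (x : ℤ) - x₀) ∪
      (Finset.range (t ^ i)).filter (fun x : ℕ => ((t ^ j : ℕ) : ℤ) ∣ (x : ℤ) - (s - x₀)) := by
    intro x hx
    obtain ⟨h1, h2⟩ := mem_Rt.1 hx
    have h3 : ((t ^ i : ℕ) : ℤ) ∣ ((x : ℤ) - x₀) * (x - (s - x₀)) := by
      have := dvd_sub h2 hx0d
      have e : (x : ℤ) ^ 2 - s * x + s ^ 2 - ((x₀ : ℤ) ^ 2 - s * x₀ + s ^ 2) =
          ((x : ℤ) - x₀) * (x - (s - x₀)) := by ring
      rwa [e] at this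
    rw [Finset.mem_union, Finset.mem_filter, Finset.mem_filter, Finset.mem_range]
    push_cast at h3 ⊢
    obtain ⟨a, b, hab, ha, hb⟩ := pow_split (t : ℤ) hpt _ _ i h3
    rcases le_or_gt j a with hja | hja
    · exact Or.inl ⟨h1, (pow_dvd_pow _ hja).trans ha⟩
    · exact Or.inr ⟨h1, (pow_dvd_pow _ (by omega)).trans hb⟩
  calc (Rt s (t ^ i)).card ≤ _ := Finset.card_le_card hsub
    _ ≤ _ := Finset.card_union_le _ _
    _ ≤ t ^ (i / 2) + t ^ (i / 2) := add_le_add (hclass _) (hclass _)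
    _ = _ := by ring

/-- submultiplicativity -/
theorem Rt_mul (s : ℤ) (m n : ℕ) (hmn : Nat.Coprime m n) (hm : 0 < m) (hn : 0 < n) :
    (Rt s (m * n)).card ≤ (Rt s m).card * (Rt s n).card := by
  classical
  rw [← Finset.card_product]
  apply Finset.card_le_card_of_injOn (fun x => (x % m, x % n))
  · intro x hx
    obtain ⟨h1, h2⟩ := mem_Rt.1 (Finset.mem_coe.1 hx)
    have key : ∀ d : ℕ, 0 < d → d ∣ m * n → x % d ∈ Rt s d := by
      intro d hd hdvd
      refine mem_Rt.2 ⟨Nat.mod_lt _ hd, ?_⟩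
      have h3 : (d : ℤ) ∣ (x : ℤ) ^ 2 - s * x + s ^ 2 :=
        (Int.natCast_dvd_natCast.2 hdvd).trans h2
      have h4 : ((x % d : ℕ) : ℤ) ≡ x [ZMOD d] := by
        push_cast
        exact Int.mod_modEq _ _
      have h5 : ((x % d : ℕ) : ℤ) ^ 2 - s * ((x % d : ℕ) : ℤ) + s ^ 2 ≡
          (x : ℤ) ^ 2 - s * x + s ^ 2 [ZMOD d] :=
        ((h4.pow 2).sub (h4.mul_left s)).add_right _
      exact (Int.ModEq.dvd_iff h5).2 h3
    rw [Finset.coe_product, Set.mem_prod]
    exact ⟨key m hm (dvd_mul_right m n), key n hn (dvd_mul_left n m)⟩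
  · intro x hx y hy hxy
    simp only [Prod.mk.injEq] at hxy
    have h1 := (mem_Rt.1 (Finset.mem_coe.1 hx)).1
    have h2 := (mem_Rt.1 (Finset.mem_coe.1 hy)).1
    have h3 : x ≡ y [MOD m * n] := (Nat.modEq_and_modEq_iff_modEq_mul hmn).1 ⟨hxy.1, hxy.2⟩
    exact Nat.ModEq.eq_of_lt_of_lt h3 h1 h2

theorem Rt_le (s : ℤ) (l : ℕ) (hl : 0 < l) :
    ((Rt s l).card : ℝ) ≤ 2 ^ (l.primeFactors.card) * Real.sqrt l := by
  induction l using Nat.recOnPosPrimePosCoprime with
  | prime_pow p n hp hn =>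
    rw [Nat.primeFactors_prime_pow hn.ne' hp, Finset.card_singleton, pow_one]
    calc ((Rt s (p ^ n)).card : ℝ) ≤ ((2 * p ^ (n / 2) : ℕ) : ℝ) := by
          exact_mod_cast Rt_pow s p hp n
      _ = 2 * (p : ℝ) ^ (n / 2) := by push_cast; ring
      _ ≤ 2 * Real.sqrt ((p ^ n : ℕ) : ℝ) := by
          have h1 : (p : ℝ) ^ (n / 2) ≤ Real.sqrt ((p ^ n : ℕ) : ℝ) := by
            apply Real.le_sqrt_of_sq_le
            rw [← pow_mul]
            push_cast
            exact pow_le_pow_right₀ (by exact_mod_cast hp.one_le) (by omega)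
          linarith
  | zero => omega
  | one =>
    simp only [Nat.primeFactors_one, Finset.card_empty, pow_zero, Nat.cast_one, Real.sqrt_one,
      mul_one]
    have : (Rt s 1).card ≤ 1 := by
      calc (Rt s 1).card ≤ (Finset.range 1).card := by
            apply Finset.card_le_card
            intro x hx
            exact Finset.mem_range.2 (mem_Rt.1 hx).1
        _ = 1 := by simp
    exact_mod_cast this
  | coprime a b ha hb hab iha ihb =>
    have h1 := Rt_mul s a b hab (by omega) (by omega)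
    have h2 := iha (by omega)
    have h3 := ihb (by omega)
    rw [Nat.Coprime.primeFactors_mul hab, Finset.card_union_of_disjoint hab.disjoint_primeFactors]
    calc ((Rt s (a * b)).card : ℝ) ≤ ((Rt s a).card : ℝ) * (Rt s b).card := by exact_mod_cast h1
      _ ≤ (2 ^ (a.primeFactors.card) * Real.sqrt a) * (2 ^ (b.primeFactors.card) * Real.sqrt b) := by
          gcongr
      _ = _ := by
          rw [pow_add, Nat.cast_mul, Real.sqrt_mul (Nat.cast_nonneg a)]
          ring

/-- coprime moduli -/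
theorem Rt_coprime (s : ℤ) (n : ℕ) (hn : 0 < n) (h : IsCoprime s (n : ℤ)) :
    (Rt s n).card ≤ (Rt 1 n).card := by
  classical
  obtain ⟨r, q, hrq⟩ := h
  have hn0 : (0 : ℤ) < n := by exact_mod_cast hn
  have hmodeq : ∀ x : ℤ, (((r * x) % n).toNat : ℤ) ≡ r * x [ZMOD n] := by
    intro x
    rw [Int.toNat_of_nonneg (Int.emod_nonneg _ hn0.ne')]
    exact Int.mod_modEq _ _
  apply Finset.card_le_card_of_injOn (fun x : ℕ => ((r * x) % n).toNat)
  · intro x hx
    obtain ⟨h1, h2⟩ := mem_Rt.1 (Finset.mem_coe.1 hx)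
    refine Finset.mem_coe.2 (mem_Rt.2 ⟨?_, ?_⟩)
    · have h3 := Int.emod_lt_of_pos (r * x) hn0
      have h4 := Int.emod_nonneg (r * x) hn0.ne'
      show ((r * x) % n).toNat < n
      omega
    · have h4 := hmodeq x
      have h5 : ((((r * x) % n).toNat : ℕ) : ℤ) ^ 2 - 1 * ((((r * x) % n).toNat : ℕ) : ℤ) + 1 ^ 2 ≡
          (r * x) ^ 2 - 1 * (r * x) + 1 ^ 2 [ZMOD n] :=
        ((h4.pow 2).sub (h4.mul_left 1)).add_right _
      refine (Int.ModEq.dvd_iff h5).2 ?_
      have e : (r * x) ^ 2 - 1 * (r * (x : ℤ)) + 1 ^ 2 = r ^ 2 * ((x : ℤ) ^ 2 - s * x + s ^ 2) +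
          n * (q * (1 + r * s - r * x)) := by
        have hr : q * n = 1 - r * s := by linarith
        linear_combination (-(1 + r * s - r * x)) * hr
      rw [e]
      exact dvd_add (h2.mul_left _) (dvd_mul_right _ _)
  · intro x hx y hy hxy
    have h1 := (mem_Rt.1 (Finset.mem_coe.1 hx)).1
    have h2 := (mem_Rt.1 (Finset.mem_coe.1 hy)).1
    simp only at hxy
    have h3 : r * (x : ℤ) ≡ r * y [ZMOD n] := by
      have a1 := hmodeq x
      have a2 := hmodeq y
      rw [hxy] at a1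
      exact a1.symm.trans a2
    have h4 : (x : ℤ) ≡ y [ZMOD n] := by
      have h5 := h3.mul_left s
      have e1 : ∀ z : ℤ, s * (r * z) ≡ z [ZMOD n] := by
        intro z
        rw [Int.modEq_iff_dvd]
        exact ⟨q * z, by linear_combination (-z) * hrq⟩
      exact ((e1 x).symm.trans h5).trans (e1 y)
    have h6 : x ≡ y [MOD n] := (Int.natCast_modEq_iff).1 h4
    exact Nat.ModEq.eq_of_lt_of_lt h6 h1 h2

/-- the inverse square root as a multiplicative map -/
noncomputable def isq : ℕ →* ℝ where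
  toFun n := (Real.sqrt n)⁻¹
  map_one' := by simp
  map_mul' m n := by
    rw [Nat.cast_mul, Real.sqrt_mul (Nat.cast_nonneg m), mul_inv]

theorem isq_nonneg (n : ℕ) : 0 ≤ isq n := inv_nonneg.2 (Real.sqrt_nonneg _)

/-- bounded sums over factored numbers -/
theorem isq_bound (P : Finset ℕ) : ∃ C : ℝ, 0 ≤ C ∧ ∀ T : Finset ℕ,
    (∀ n ∈ T, n ∈ Nat.factoredNumbers P) → ∑ n ∈ T, isq n ≤ C := by
  have h := (EulerProduct.summable_and_hasSum_factoredNumbers_prod_filter_prime_geometric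
    (f := isq) (fun {p} hp => by
      rw [Real.norm_eq_abs, abs_of_nonneg (isq_nonneg p)]
      show (Real.sqrt p)⁻¹ < 1
      apply inv_lt_one_of_one_lt₀
      rw [Real.lt_sqrt (by norm_num)]
      have : (2 : ℝ) ≤ p := by exact_mod_cast hp.two_le
      linarith) P).1
  have h2 : Summable ((Nat.factoredNumbers P).indicator (fun n => ‖isq n‖)) :=
    (summable_subtype_iff_indicator (f := fun n => ‖isq n‖)).1 h
  refine ⟨∑' n, (Nat.factoredNumbers P).indicator (fun n => ‖isq n‖) n,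
    tsum_nonneg fun n => Set.indicator_nonneg (fun _ _ => norm_nonneg _) _, ?_⟩
  intro T hT
  calc ∑ n ∈ T, isq n = ∑ n ∈ T, (Nat.factoredNumbers P).indicator (fun n => ‖isq n‖) n := by
        apply Finset.sum_congr rfl
        intro n hn
        rw [Set.indicator_of_mem (hT n hn), Real.norm_eq_abs, abs_of_nonneg (isq_nonneg n)]
    _ ≤ _ := h2.sum_le_tsum T (fun n _ => Set.indicator_nonneg (fun _ _ => norm_nonneg _) _)

/-- splitting off the part composed of the primes of `P` -/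
theorem split (P : Finset ℕ) (l : ℕ) (hl : 0 < l) : ∃ A B : ℕ, l = A * B ∧
    A ∈ Nat.factoredNumbers P ∧ ∀ t : ℕ, t.Prime → t ∣ B → t ∉ P := by
  induction l using Nat.strong_induction_on with
  | _ l ih =>
    by_cases h : ∃ t : ℕ, t.Prime ∧ t ∣ l ∧ t ∈ P
    · obtain ⟨t, ht, ⟨k, hk⟩, htP⟩ := h
      have hk0 : 0 < k := by
        rcases Nat.eq_zero_or_pos k with h | h
        · rw [h] at hk; omega
        · exact h
      have hkl : k < l := by
        rw [hk]
        have := ht.two_le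
        nlinarith
      obtain ⟨A, B, h1, h2, h3⟩ := ih k hkl hk0
      refine ⟨t * A, B, by rw [hk, h1]; ring, ?_, h3⟩
      refine Nat.mul_mem_factoredNumbers ?_ h2
      rw [Nat.mem_factoredNumbers]
      refine ⟨ht.ne_zero, fun p hp => ?_⟩
      rw [Nat.primeFactorsList_prime ht, List.mem_singleton] at hp
      rw [hp]; exact htP
    · push Not at h
      refine ⟨1, l, by ring, ?_, h⟩
      rw [Nat.mem_factoredNumbers]
      exact ⟨one_ne_zero, fun p hp => by simp at hp⟩

/-- bound of one term -/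
theorem term_bound (s : ℤ) (P : Finset ℕ) (A B : ℕ) (hA0 : 0 < A) (hB0 : 0 < B)
    (h2 : A ∈ Nat.factoredNumbers P) (hcop : Nat.Coprime A B) (hsB : IsCoprime s (B : ℤ)) :
    ((Rt s (A * B)).card : ℝ) / ((A * B : ℕ) : ℝ) ≤
      2 ^ P.card * isq A * ((Rt 1 B).card / (B : ℝ)) := by
  have hAr : (0 : ℝ) < A := by exact_mod_cast hA0
  have hBr : (0 : ℝ) < B := by exact_mod_cast hB0
  have h7 : Real.sqrt A * Real.sqrt A = A := Real.mul_self_sqrt hAr.le
  have h8 : 0 < Real.sqrt A := Real.sqrt_pos.2 hAr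
  have r1 : ((Rt s (A * B)).card : ℝ) ≤ (2 ^ P.card * Real.sqrt A) * (Rt 1 B).card := by
    calc ((Rt s (A * B)).card : ℝ) ≤ ((Rt s A).card : ℝ) * (Rt s B).card := by
          exact_mod_cast Rt_mul s A B hcop hA0 hB0
      _ ≤ (2 ^ (A.primeFactors.card) * Real.sqrt A) * (Rt 1 B).card := by
          have := Rt_le s A hA0
          have h5 : ((Rt s B).card : ℝ) ≤ (Rt 1 B).card := by
            exact_mod_cast Rt_coprime s B hB0 hsB
          gcongr
      _ ≤ _ := by
          have h6 : A.primeFactors.card ≤ P.card :=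
            Finset.card_le_card (Nat.primeFactors_subset_of_mem_factoredNumbers h2)
          gcongr
          norm_num
  rw [div_le_iff₀ (by positivity)]
  refine r1.trans (le_of_eq ?_)
  show _ = 2 ^ P.card * (Real.sqrt A)⁻¹ * ((Rt 1 B).card / (B : ℝ)) * ((A * B : ℕ) : ℝ)
  have e1 : (2 ^ P.card * (Real.sqrt A)⁻¹ * ((Rt 1 B).card / (B : ℝ)) * ((A * B : ℕ) : ℝ) : ℝ) =
      2 ^ P.card * ((Real.sqrt A)⁻¹ * A) * (Rt 1 B).card := by
    push_cast
    field_simp
  have e2 : (Real.sqrt A)⁻¹ * A = Real.sqrt A := by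
    rw [inv_mul_eq_div, div_eq_iff h8.ne', h7]
  rw [e1, e2]

theorem rho_main : T_RHO := by
  classical
  intro b hb
  obtain ⟨K1, hK1⟩ := rho1
  have hK1' : 0 ≤ K1 := by
    have h1 := hK1 1 le_rfl
    have h2 : (0 : ℝ) ≤ ∑ l ∈ Finset.Icc (1 : ℕ) 1, (rho 1 ((l : ℕ) : ℤ) : ℝ) :=
      Finset.sum_nonneg fun _ _ => Nat.cast_nonneg _
    have h3 := h2.trans h1
    simpa using h3
  set P := b.natAbs.primeFactors with hP
  obtain ⟨C, hC0, hC⟩ := isq_bound P
  refine ⟨2 ^ P.card * C * (64 * K1), ?_⟩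
  intro s L hs hL
  have hmemP : ∀ t : ℕ, t.Prime → (t ∈ P ↔ (t : ℤ) ∣ b) := by
    intro t ht
    rw [hP, Nat.mem_primeFactors]
    constructor
    · rintro ⟨-, h, -⟩
      exact Int.natCast_dvd.2 h
    · intro h
      exact ⟨ht, Int.natCast_dvd.1 h, by simpa using hb⟩
  -- choose the splitting
  have hsp : ∀ l : ℕ, ∃ AB : ℕ × ℕ, 0 < l → l = AB.1 * AB.2 ∧
      AB.1 ∈ Nat.factoredNumbers P ∧ ∀ t : ℕ, t.Prime → t ∣ AB.2 → t ∉ P := by
    intro l
    by_cases hl : 0 < l
    · obtain ⟨A, B, h⟩ := split P l hl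
      exact ⟨(A, B), fun _ => h⟩
    · exact ⟨(0, 0), fun h => absurd h hl⟩
  choose e he using hsp
  set G : ℕ × ℕ → ℝ := fun p => 2 ^ P.card * isq p.1 * ((Rt 1 p.2).card / (p.2 : ℝ)) with hG
  have hG0 : ∀ p, 0 ≤ G p := by
    intro p
    have := isq_nonneg p.1
    positivity
  set TA : Finset ℕ := (Finset.Icc 1 (64 * L)).filter (fun A => A ∈ Nat.factoredNumbers P) with hTA
  set SB : ℕ → Finset ℕ := fun A => (Finset.Icc 1 (64 * L / A)).filter (fun B => L ≤ A * B) with hSB
  -- termwise bound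
  have hterm : ∀ l ∈ Finset.Icc L (64 * L), (if (∀ t : ℕ, t.Prime → ¬ ((t : ℤ) ∣ b) →
      ¬ ((t : ℤ) ∣ s ∧ t ∣ l)) then (rho s (l : ℤ) : ℝ) / l else 0) ≤ G (e l) := by
    intro l hl
    obtain ⟨hl1, hl2⟩ := Finset.mem_Icc.1 hl
    have hl0 : 0 < l := by omega
    split_ifs with hok
    swap
    · exact hG0 _
    obtain ⟨h1, h2, h3⟩ := he l hl0
    rw [hG]
    simp only
    generalize (e l).1 = A at h1 h2
    generalize (e l).2 = B at h1 h3
    have hA0 : 0 < A := Nat.pos_of_ne_zero (Nat.ne_zero_of_mem_factoredNumbers h2)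
    have hB0 : 0 < B := by
      rcases Nat.eq_zero_or_pos B with h | h
      · rw [h] at h1; omega
      · exact h
    have hcop : Nat.Coprime A B := by
      apply Nat.Coprime.symm
      apply Nat.coprime_of_dvd
      intro t ht htB htA
      exact h3 t ht htB (Nat.mem_factoredNumbers'.1 h2 t ht htA)
    have hsB : IsCoprime s (B : ℤ) := by
      rw [Int.isCoprime_iff_nat_coprime, Int.natAbs_natCast]
      apply Nat.coprime_of_dvd
      intro t ht hts htB
      refine hok t ht (fun hc => h3 t ht htB ((hmemP t ht).2 hc)) ⟨Int.natCast_dvd.2 hts, ?_⟩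
      rw [h1]; exact htB.mul_left A
    rw [rho_eq, h1]
    exact term_bound s P A B hA0 hB0 h2 hcop hsB
  -- the image of the splitting
  have hmaps : ∀ l ∈ Finset.Icc L (64 * L), (e l).1 ∈ TA ∧ (e l).2 ∈ SB (e l).1 := by
    intro l hl
    obtain ⟨hl1, hl2⟩ := Finset.mem_Icc.1 hl
    obtain ⟨h1, h2, h3⟩ := he l (by omega)
    generalize (e l).1 = A at h1 h2
    generalize (e l).2 = B at h1 h3
    have hA0 : 0 < A := Nat.pos_of_ne_zero (Nat.ne_zero_of_mem_factoredNumbers h2)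
    have hB0 : 0 < B := by
      rcases Nat.eq_zero_or_pos B with h | h
      · rw [h] at h1; omega
      · exact h
    have hAB : A * B ≤ 64 * L := by omega
    rw [hTA, hSB]
    simp only [Finset.mem_filter, Finset.mem_Icc]
    refine ⟨⟨⟨hA0, ?_⟩, h2⟩, ⟨hB0, ?_⟩, by omega⟩
    · exact (Nat.le_mul_of_pos_right A hB0).trans hAB
    · rw [Nat.le_div_iff_mul_le hA0, mul_comm]; exact hAB
  have hinj : Set.InjOn e (Finset.Icc L (64 * L) : Finset ℕ) := by
    intro l hl l' hl' hee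
    have hl1 := (Finset.mem_Icc.1 (Finset.mem_coe.1 hl)).1
    have hl1' := (Finset.mem_Icc.1 (Finset.mem_coe.1 hl')).1
    have h1 := (he l (by omega)).1
    have h1' := (he l' (by omega)).1
    rw [hee] at h1
    exact h1.trans h1'.symm
  -- inner sums
  have hinner : ∀ A ∈ TA, ∑ B ∈ SB A, ((Rt 1 B).card / (B : ℝ)) ≤ 64 * K1 := by
    intro A hA
    obtain ⟨hA1, hA2⟩ := Finset.mem_filter.1 hA
    obtain ⟨hA3, hA4⟩ := Finset.mem_Icc.1 hA1
    have hAr : (0 : ℝ) < A := by exact_mod_cast hA3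
    have hLr : (0 : ℝ) < L := by exact_mod_cast hL
    have h1 : 1 ≤ 64 * L / A := (Nat.one_le_div_iff (by omega)).2 hA4
    calc ∑ B ∈ SB A, ((Rt 1 B).card / (B : ℝ)) ≤ ∑ B ∈ SB A, ((A : ℝ) / L) * (Rt 1 B).card := by
          apply Finset.sum_le_sum
          intro B hB
          obtain ⟨hB1, hB2⟩ := Finset.mem_filter.1 hB
          have hB0 : 0 < B := (Finset.mem_Icc.1 hB1).1
          have hBr : (0 : ℝ) < B := by exact_mod_cast hB0
          have hLAB : (L : ℝ) ≤ A * B := by exact_mod_cast hB2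
          rw [div_mul_eq_mul_div, div_le_div_iff₀ hBr hLr]
          have h9 : (0 : ℝ) ≤ (Rt 1 B).card := Nat.cast_nonneg _
          nlinarith
      _ ≤ ∑ B ∈ Finset.Icc 1 (64 * L / A), ((A : ℝ) / L) * (Rt 1 B).card := by
          apply Finset.sum_le_sum_of_subset_of_nonneg (Finset.filter_subset _ _)
          intro B _ _
          positivity
      _ = ((A : ℝ) / L) * ∑ B ∈ Finset.Icc 1 (64 * L / A), ((Rt 1 B).card : ℝ) := by
          rw [Finset.mul_sum]
      _ ≤ ((A : ℝ) / L) * (K1 * ((64 * L / A : ℕ) : ℝ)) := by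
          gcongr
          have := hK1 (64 * L / A) h1
          calc ∑ B ∈ Finset.Icc 1 (64 * L / A), ((Rt 1 B).card : ℝ) =
              ∑ B ∈ Finset.Icc 1 (64 * L / A), (rho 1 (B : ℤ) : ℝ) :=
                Finset.sum_congr rfl fun B _ => by rw [rho_eq]
            _ ≤ _ := this
      _ ≤ ((A : ℝ) / L) * (K1 * ((64 * L : ℝ) / A)) := by
          gcongr
          have := Nat.cast_div_le (α := ℝ) (m := 64 * L) (n := A)
          push_cast at this
          exact this
      _ = 64 * K1 := by field_simp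
  calc ∑ l ∈ Finset.Icc L (64 * L), (if (∀ t : ℕ, t.Prime → ¬ ((t : ℤ) ∣ b) →
      ¬ ((t : ℤ) ∣ s ∧ t ∣ l)) then (rho s (l : ℤ) : ℝ) / l else 0)
      ≤ ∑ l ∈ Finset.Icc L (64 * L), G (e l) := Finset.sum_le_sum hterm
    _ = ∑ p ∈ (Finset.Icc L (64 * L)).image e, G p := (Finset.sum_image hinj).symm
    _ ≤ ∑ p ∈ (TA.sigma SB).image (fun q => (q.1, q.2)), G p := by
        apply Finset.sum_le_sum_of_subset_of_nonneg
        · intro p hp
          obtain ⟨l, hl, rfl⟩ := Finset.mem_image.1 hp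
          obtain ⟨h1, h2⟩ := hmaps l hl
          rw [Finset.mem_image]
          exact ⟨⟨(e l).1, (e l).2⟩, Finset.mem_sigma.2 ⟨h1, h2⟩, rfl⟩
        · intro p _ _
          exact hG0 p
    _ = ∑ q ∈ TA.sigma SB, G (q.1, q.2) := by
        apply Finset.sum_image
        intro q _ q' _ h
        simp only [Prod.mk.injEq] at h
        obtain ⟨A, B⟩ := q
        obtain ⟨A', B'⟩ := q'
        simp only at h
        obtain ⟨rfl, rfl⟩ := h
        rfl
    _ = ∑ A ∈ TA, ∑ B ∈ SB A, G (A, B) := Finset.sum_sigma _ _ _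
    _ = ∑ A ∈ TA, 2 ^ P.card * isq A * ∑ B ∈ SB A, ((Rt 1 B).card / (B : ℝ)) := by
        apply Finset.sum_congr rfl
        intro A _
        rw [Finset.mul_sum]
    _ ≤ ∑ A ∈ TA, 2 ^ P.card * isq A * (64 * K1) := by
        apply Finset.sum_le_sum
        intro A hA
        have := isq_nonneg A
        gcongr
        exact hinner A hA
    _ = 2 ^ P.card * (∑ A ∈ TA, isq A) * (64 * K1) := by
        rw [Finset.mul_sum, Finset.sum_mul]
    _ ≤ 2 ^ P.card * C * (64 * K1) := by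
        gcongr
        exact hC TA fun n hn => (Finset.mem_filter.1 hn).2

end Pool.Agent.H67.GF
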