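import Pool.Agent.H7.GF.Targets3

/-!
# RHO1: average number of roots of `x² - x + 1` modulo `l`
-/

set_option autoImplicit false

namespace Pool.Agent.H67.GF

open Pool.Agent.H7.GF

/-- Thue's lemma -/
theorem thue (l : ℕ) (hl : 1 ≤ l) (x : ℤ) : ∃ u v : ℤ, (u ≠ 0 ∨ v ≠ 0) ∧
    |u| ≤ Nat.sqrt l ∧ |v| ≤ Nat.sqrt l ∧ (l : ℤ) ∣ u - x * v := by
  have : NeZero l := ⟨by omega⟩
  set s := Nat.sqrt l with hs
  set S : Finset (ℕ × ℕ) := Finset.range (s + 1) ×ˢ Finset.range (s + 1) with hS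
  have hcard : (Finset.univ : Finset (ZMod l)).card < S.card := by
    rw [Finset.card_univ, ZMod.card, hS, Finset.card_product, Finset.card_range]
    exact Nat.lt_succ_sqrt l
  obtain ⟨p, hp, q, hq, hne, he⟩ := Finset.exists_ne_map_eq_of_card_lt_of_maps_to hcard
    (f := fun p : ℕ × ℕ => ((p.1 : ℤ) - x * p.2 : ZMod l)) (fun _ _ => Finset.mem_coe.2 (Finset.mem_univ _))
  rw [hS, Finset.mem_product, Finset.mem_range, Finset.mem_range] at hp hq
  refine ⟨(p.1 : ℤ) - q.1, (p.2 : ℤ) - q.2, ?_, ?_, ?_, ?_⟩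
  · by_contra hc
    push Not at hc
    apply hne
    have h1 : (p.1 : ℤ) = q.1 := by linarith [hc.1]
    have h2 : (p.2 : ℤ) = q.2 := by linarith [hc.2]
    exact Prod.ext (by exact_mod_cast h1) (by exact_mod_cast h2)
  · rw [abs_le]; constructor <;> omega
  · rw [abs_le]; constructor <;> omega
  · rw [← ZMod.intCast_zmod_eq_zero_iff_dvd]
    push_cast
    have h := he
    push_cast at h
    linear_combination h

/-- the values of the form at a Thue pair -/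
theorem thue_val (l : ℕ) (hl : 1 ≤ l) (x : ℤ) (hx : (l : ℤ) ∣ x ^ 2 - x + 1) : ∃ u v c : ℤ,
    |u| ≤ Nat.sqrt l ∧ |v| ≤ Nat.sqrt l ∧ 1 ≤ c ∧ c ≤ 3 ∧ u ^ 2 - u * v + v ^ 2 = c * l ∧
    (l : ℤ) ∣ u - x * v := by
  obtain ⟨u, v, h0, hu, hv, hd⟩ := thue l hl x
  have hdN : (l : ℤ) ∣ u ^ 2 - u * v + v ^ 2 := by
    have e : u ^ 2 - u * v + v ^ 2 = (u - x * v) * (u + x * v - v) + v ^ 2 * (x ^ 2 - x + 1) := by
      ring
    rw [e]
    exact dvd_add (hd.mul_right _) (hx.mul_left _)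
  obtain ⟨c, hc⟩ := hdN
  have hl0 : (0 : ℤ) < l := by exact_mod_cast hl
  have hpos : 0 < u ^ 2 - u * v + v ^ 2 := by
    rcases h0 with h | h
    · nlinarith [sq_nonneg (u - 2 * v), sq_pos_of_ne_zero h]
    · nlinarith [sq_nonneg (2 * u - v), sq_pos_of_ne_zero h]
  have hs : (Nat.sqrt l : ℤ) ^ 2 ≤ l := by
    have := Nat.sqrt_le' l
    exact_mod_cast this
  have hu2 : u ^ 2 ≤ l := by
    have := sq_abs u
    have h1 := abs_nonneg u
    nlinarith
  have hv2 : v ^ 2 ≤ l := by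
    have := sq_abs v
    have h1 := abs_nonneg v
    nlinarith
  have huv : -(u * v) ≤ l := by
    nlinarith [sq_nonneg (u + v)]
  have hle : u ^ 2 - u * v + v ^ 2 ≤ 3 * l := by linarith
  refine ⟨u, v, c, hu, hv, ?_, ?_, by rw [hc]; ring, hd⟩
  · by_contra hc1
    have : c ≤ 0 := by omega
    nlinarith
  · by_contra hc1
    have : 4 ≤ c := by omega
    nlinarith

/-- the roots modulo `l` -/
noncomputable def Rt (s : ℤ) (l : ℕ) : Finset ℕ := by
  classical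
  exact (Finset.range l).filter (fun x => (l : ℤ) ∣ (x : ℤ) ^ 2 - s * x + s ^ 2)

theorem mem_Rt {s : ℤ} {l x : ℕ} : x ∈ Rt s l ↔ x < l ∧ (l : ℤ) ∣ (x : ℤ) ^ 2 - s * x + s ^ 2 := by
  classical
  unfold Rt
  rw [Finset.mem_filter, Finset.mem_range]

theorem rho_eq (s : ℤ) (l : ℕ) : rho s (l : ℤ) = (Rt s l).card := by
  classical
  unfold rho
  have e : {x : ℤ | 0 ≤ x ∧ x < (l : ℤ) ∧ (l : ℤ) ∣ x ^ 2 - s * x + s ^ 2} =
      ((Rt s l).image (fun x : ℕ => (x : ℤ)) : Finset ℤ) := by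
    ext x
    simp only [Finset.coe_image, Set.mem_image, Finset.mem_coe, mem_Rt]
    constructor
    · rintro ⟨h1, h2, h3⟩
      obtain ⟨n, rfl⟩ := Int.eq_ofNat_of_zero_le h1
      exact ⟨n, ⟨by exact_mod_cast h2, h3⟩, rfl⟩
    · rintro ⟨n, ⟨h1, h2⟩, rfl⟩
      exact ⟨Int.natCast_nonneg n, by exact_mod_cast h1, h2⟩
  rw [e, Set.ncard_coe_finset, Finset.card_image_of_injective _ Nat.cast_injective]

/-- injectivity of the coding -/
theorem code_inj (l : ℕ) (hl : 1 ≤ l) (u v c : ℤ) (hc1 : 1 ≤ c) (hc3 : c ≤ 3)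
    (hN : u ^ 2 - u * v + v ^ 2 = c * l) (x y : ℕ)
    (hx : (l : ℤ) ∣ (x : ℤ) ^ 2 - x + 1)
    (hux : (l : ℤ) ∣ u - x * v) (huy : (l : ℤ) ∣ u - y * v) (hj : 6 * x / l = 6 * y / l) :
    x = y := by
  have hl0 : (0 : ℤ) < l := by exact_mod_cast hl
  -- `gcd(v,l) ∣ c`
  set g : ℤ := ((Int.gcd v l : ℕ) : ℤ) with hg
  have hgv : g ∣ v := Int.gcd_dvd_left ..
  have hgl : g ∣ (l : ℤ) := Int.gcd_dvd_right ..
  obtain ⟨k, hk⟩ := hux
  obtain ⟨mm, hmm⟩ := hx
  have hcform : c = mm * v ^ 2 + (2 * x - 1) * k * v + l * k * k := by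
    have e1 : u = x * v + l * k := by linarith
    have e2 : u ^ 2 - u * v + v ^ 2 = l * (mm * v ^ 2 + (2 * x - 1) * k * v + l * k * k) := by
      rw [e1]
      linear_combination v ^ 2 * hmm
    rw [e2] at hN
    have : (l : ℤ) * (mm * v ^ 2 + (2 * x - 1) * k * v + l * k * k) = l * c := by linarith
    exact (mul_left_cancel₀ hl0.ne' this).symm
  have hgc : g ∣ c := by
    rw [hcform]
    refine dvd_add (dvd_add ?_ ?_) ?_
    · exact (hgv.mul_left _).trans (by rw [sq]; exact ⟨v, by ring⟩)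
    · exact hgv.mul_left _
    · exact (hgl.mul_right _).mul_right _
  have hg6 : g ∣ 6 := by
    have h1 : c = 1 ∨ c = 2 ∨ c = 3 := by omega
    rcases h1 with rfl | rfl | rfl
    · exact hgc.trans (by norm_num)
    · exact hgc.trans (by norm_num)
    · exact hgc.trans (by norm_num)
  -- `l ∣ 6 (x - y)`
  have h1 : (l : ℤ) ∣ ((x : ℤ) - y) * v := by
    have := dvd_sub huy ⟨k, hk⟩
    have e : u - y * v - (u - x * v) = ((x : ℤ) - y) * v := by ring
    rwa [e] at this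
  have h2 : (l : ℤ) ∣ ((x : ℤ) - y) * g := by
    rw [hg, Int.gcd_eq_gcd_ab v l]
    have e : ((x : ℤ) - y) * (v * Int.gcdA v l + l * Int.gcdB v l) =
      (((x : ℤ) - y) * v) * Int.gcdA v l + l * (((x : ℤ) - y) * Int.gcdB v l) := by ring
    rw [e]
    exact dvd_add (h1.mul_right _) (dvd_mul_right _ _)
  have h3 : (l : ℤ) ∣ ((x : ℤ) - y) * 6 := h2.trans (mul_dvd_mul_left _ hg6)
  -- conclude
  have h4 : |((x : ℤ) - y) * 6| < l := by
    have a1 := Nat.div_add_mod (6 * x) l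
    have a2 := Nat.div_add_mod (6 * y) l
    have b1 := Nat.mod_lt (6 * x) hl
    have b2 := Nat.mod_lt (6 * y) hl
    rw [hj] at a1
    set A := l * (6 * y / l)
    rw [abs_lt]
    constructor <;> omega
  have h5 := Int.eq_zero_of_abs_lt_dvd h3 h4
  have : (x : ℤ) = y := by omega
  exact_mod_cast this

theorem rho1 : T_RHO1 := by
  classical
  refine ⟨162, ?_⟩
  intro L hL
  have h1 : ∑ l ∈ Finset.Icc 1 L, (rho 1 (l : ℤ) : ℝ) =
      (((Finset.Icc 1 L).sigma (fun l => Rt 1 l)).card : ℝ) := by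
    rw [Finset.card_sigma]
    push_cast
    exact Finset.sum_congr rfl fun l _ => by rw [rho_eq]
  rw [h1]
  set s : ℤ := ((Nat.sqrt L : ℕ) : ℤ) with hs
  set Tgt : Finset ((ℤ × ℤ) × (ℤ × ℕ)) := (Finset.Icc (-s) s ×ˢ Finset.Icc (-s) s) ×ˢ
    (Finset.Icc 1 3 ×ˢ Finset.range 6) with hT
  have hchoice : ∀ p : (_ : ℕ) × ℕ, ∃ u v c : ℤ,
      p ∈ (Finset.Icc 1 L).sigma (fun l => Rt 1 l) → |u| ≤ Nat.sqrt p.1 ∧ |v| ≤ Nat.sqrt p.1 ∧
        1 ≤ c ∧ c ≤ 3 ∧ u ^ 2 - u * v + v ^ 2 = c * p.1 ∧ (p.1 : ℤ) ∣ u - p.2 * v := by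
    intro p
    by_cases hp : p ∈ (Finset.Icc 1 L).sigma (fun l => Rt 1 l)
    · obtain ⟨h2, h3⟩ := Finset.mem_sigma.1 hp
      obtain ⟨h4, h5⟩ := mem_Rt.1 h3
      obtain ⟨u, v, c, h⟩ := thue_val p.1 (Finset.mem_Icc.1 h2).1 p.2 (by simpa using h5)
      exact ⟨u, v, c, fun _ => h⟩
    · exact ⟨0, 0, 0, fun h => absurd h hp⟩
  choose U V Cc hUV using hchoice
  have hcard : ((Finset.Icc 1 L).sigma (fun l => Rt 1 l)).card ≤ Tgt.card := by
    apply Finset.card_le_card_of_injOn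
      (fun p => ((U p, V p), (Cc p, 6 * p.2 / p.1)))
    · intro p hp
      have hp' := Finset.mem_coe.1 hp
      obtain ⟨h2, h3⟩ := Finset.mem_sigma.1 hp'
      obtain ⟨h4, h5⟩ := mem_Rt.1 h3
      obtain ⟨e1, e2, e3, e4, -, -⟩ := hUV p hp'
      have hsq : (Nat.sqrt p.1 : ℤ) ≤ s := by
        rw [hs]; exact_mod_cast Nat.sqrt_le_sqrt (Finset.mem_Icc.1 h2).2
      have f1 := abs_le.1 (e1.trans hsq)
      have f2 := abs_le.1 (e2.trans hsq)
      rw [hT]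
      simp only [Finset.coe_product, Set.mem_prod, Finset.mem_coe, Finset.mem_Icc, Finset.mem_range]
      refine ⟨⟨f1, f2⟩, ⟨e3, e4⟩, ?_⟩
      rw [Nat.div_lt_iff_lt_mul (Finset.mem_Icc.1 h2).1]
      omega
    · intro p hp p' hp' he
      have hp := Finset.mem_coe.1 hp
      have hp' := Finset.mem_coe.1 hp'
      obtain ⟨h2, h3⟩ := Finset.mem_sigma.1 hp
      obtain ⟨h4, h5⟩ := mem_Rt.1 h3
      obtain ⟨h2', h3'⟩ := Finset.mem_sigma.1 hp'
      obtain ⟨h4', h5'⟩ := mem_Rt.1 h3'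
      obtain ⟨e1, e2, e3, e4, e5, e6⟩ := hUV p hp
      obtain ⟨e1', e2', e3', e4', e5', e6'⟩ := hUV p' hp'
      simp only [Prod.mk.injEq] at he
      obtain ⟨⟨hU, hV⟩, hC, hj⟩ := he
      have hl : p.1 = p'.1 := by
        rw [← hU, ← hV, ← hC, e5] at e5'
        have : (p.1 : ℤ) = p'.1 := mul_left_cancel₀ (by omega) e5'
        exact_mod_cast this
      obtain ⟨l, x⟩ := p
      obtain ⟨l', x'⟩ := p'
      simp only at hl
      subst hl
      simp only at *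
      rw [← hU, ← hV] at e6'
      have := code_inj l (Finset.mem_Icc.1 h2).1 _ _ _ e3 e4 e5 x x' (by simpa using h5)
        e6 e6' hj
      rw [this]
  have hTcard : Tgt.card = (2 * Nat.sqrt L + 1) * (2 * Nat.sqrt L + 1) * (3 * 6) := by
    rw [hT, Finset.card_product, Finset.card_product, Finset.card_product, Int.card_Icc,
      Int.card_Icc, Finset.card_range]
    have e1 : (s + 1 - -s).toNat = 2 * Nat.sqrt L + 1 := by omega
    have e2 : (3 + 1 - 1 : ℤ).toNat = 3 := rfl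
    rw [e1, e2]
  have hsL : Nat.sqrt L * Nat.sqrt L ≤ L := Nat.sqrt_le L
  have hs1 : 1 ≤ Nat.sqrt L := by
    rw [Nat.le_sqrt]; omega
  have hfin : Tgt.card ≤ 162 * L := by
    rw [hTcard]
    nlinarith
  calc (((Finset.Icc 1 L).sigma (fun l => Rt 1 l)).card : ℝ) ≤ (Tgt.card : ℝ) := by
        exact_mod_cast hcard
    _ ≤ ((162 * L : ℕ) : ℝ) := by exact_mod_cast hfin
    _ = 162 * L := by push_cast; ring

end Pool.Agent.H67.GF
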